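import Pool.Agent.PP5V.Tc
import Pool.Agent.PP5K.Kd
import Pool.Agent.PP5T.Ssa

/-!
# PP5 (D'), tail lemma: the points `x` with a modulus `n > Y`
-/

set_option autoImplicit false

namespace Pool.Agent.PP5V

open Matrix Pool.Agent.PP5P Pool.Agent.PP5L Pool.Agent.PP5K Pool.Agent.PP5T

/-- symmetric matrices of rank at most one -/
theorem rk1_card {B : ℝ} (hB : 1 ≤ B) (S : Finset (Matrix (Fin 4) (Fin 4) ℤ))
    (h : ∀ M ∈ S, (∀ i j, M i j = M j i) ∧ (∀ i j, |(M i j : ℝ)| ≤ B) ∧ ∀ a b c d, mr M a b c d = 0) :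
    (S.card : ℝ) ≤ 81 * 3 ^ 16 * B ^ 4 := by
  classical
  set T : Finset ((Fin 4 → ℤ) × (Fin 4 × Fin 4 → SignType)) :=
    (Fintype.piFinset fun _ => Finset.Icc (-⌊B⌋) ⌊B⌋) ×ˢ Finset.univ with hT
  have hTc : (T.card : ℝ) ≤ 81 * 3 ^ 16 * B ^ 4 := by
    rw [hT, Finset.card_product, Fintype.card_piFinset]
    simp only [Finset.prod_const, Finset.card_univ, Fintype.card_fin, Fintype.card_fun, Fintype.card_prod]
    have h0 : Fintype.card SignType = 3 := rfl
    rw [h0]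
    push_cast
    have h1 := Icc_card (show 0 ≤ B by linarith)
    have h2 : ((Finset.Icc (-⌊B⌋) ⌊B⌋).card : ℝ) ≤ 3 * B := by linarith
    have h3 : ((Finset.Icc (-⌊B⌋) ⌊B⌋).card : ℝ) ^ 4 ≤ (3 * B) ^ 4 := pow_le_pow_left₀ (Nat.cast_nonneg _) h2 _
    norm_num at h3 ⊢
    nlinarith
  refine le_trans ?_ hTc
  have hinj : S.card ≤ T.card := by
    refine Finset.card_le_card_of_injOn (fun M => (fun i => M i i, fun p => SignType.sign (M p.1 p.2))) ?_ ?_
    · intro M hM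
      have hM' : M ∈ S := hM
      rw [hT, Finset.mem_coe, Finset.mem_product]
      refine ⟨?_, Finset.mem_univ _⟩
      rw [Fintype.mem_piFinset]
      exact fun i => mem_Icc_of_abs ((h M hM').2.1 i i)
    · intro M hM M' hM' he
      have hMS : M ∈ S := hM
      have hMS' : M' ∈ S := hM'
      simp only [Prod.mk.injEq] at he
      obtain ⟨e1, e2⟩ := he
      obtain ⟨s1, _, r1⟩ := h M hMS
      obtain ⟨s2, _, r2⟩ := h M' hMS'
      ext i j
      have f1 := congrFun e1 i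
      have f2 := congrFun e1 j
      have f3 := congrFun e2 (i, j)
      simp only at f1 f2 f3
      have g1 := r1 i j i j
      have g2 := r2 i j i j
      unfold mr at g1 g2
      have g3 : M i j * M i j = M' i j * M' i j := by
        rw [s1 j i] at g1
        rw [s2 j i] at g2
        rw [f1, f2] at g1
        linarith
      have g4 : |M i j| = |M' i j| := abs_eq_abs.2 (mul_self_eq_mul_self_iff.1 g3)
      have g5 := sign_mul_abs (M i j)
      have g6 := sign_mul_abs (M' i j)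
      rw [f3, g4] at g5
      exact g5.symm.trans g6
  exact_mod_cast hinj

/-- the properties of the two matrices attached to `x` -/
structure Mx (M : (Fin 10 → ℤ) → Matrix (Fin 4) (Fin 4) ℤ) : Prop where
  inj : Function.Injective M
  sy : ∀ x i j, M x i j = M x j i
  bd : ∀ (x : Fin 10 → ℤ) (Y : ℝ), (∀ j, |(x j : ℝ)| ≤ Y) → ∀ i j, |(M x i j : ℝ)| ≤ 2 * Y
  dl : ∀ x i, (M x i i).natAbs = 2 * (x (dg i)).natAbs

theorem tail_x {M : (Fin 10 → ℤ) → Matrix (Fin 4) (Fin 4) ℤ} (hM : Mx M) {ε : ℝ} (hε : 0 < ε) :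
    ∃ C : ℝ, 1 ≤ C ∧ ∀ Y : ℝ, 1 ≤ Y → ∀ S : Finset (Fin 10 → ℤ),
    (∀ x ∈ S, (∀ j, |(x j : ℝ)| ≤ Y) ∧ ∃ n : ℕ, Y < (n : ℝ) ∧
      (∀ p : ℕ, p.Prime → (p : ℤ) ∣ (n : ℤ) → ∃ i, ¬ (p : ℤ) ∣ x (dg i)) ∧
      ∀ a b c d, (n : ℤ) ∣ 4 * mr (M x) a b c d) → (S.card : ℝ) ≤ C * Y ^ (5 + ε) := by
  classical
  obtain ⟨C, hC, ht⟩ := tail hε
  refine ⟨C * 2 ^ (5 + ε) + 81 * 3 ^ 16 * 2 ^ 4, ?_, fun Y hY S hS => ?_⟩
  · have : (0 : ℝ) ≤ C * 2 ^ (5 + ε) := by positivity
    norm_num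
    linarith
  have hY0 : 0 < Y := by linarith
  set S1 := S.filter fun x => ∀ a b c d, mr (M x) a b c d = 0 with hS1
  set S2 := S.filter fun x => ¬ ∀ a b c d, mr (M x) a b c d = 0 with hS2
  have h0 : S.card = S1.card + S2.card := (Finset.card_filter_add_card_filter_not _).symm
  have h1 : (S1.card : ℝ) ≤ 81 * 3 ^ 16 * (2 * Y) ^ 4 := by
    rw [← Finset.card_image_of_injective S1 hM.inj]
    refine rk1_card (by linarith) _ ?_
    intro N hN
    obtain ⟨x, hx, rfl⟩ := Finset.mem_image.1 hN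
    obtain ⟨hx1, hx2⟩ := Finset.mem_filter.1 hx
    exact ⟨hM.sy x, hM.bd x Y (hS x hx1).1, hx2⟩
  have h2 : (S2.card : ℝ) ≤ C * (2 * Y) ^ (5 + ε) := by
    rw [← Finset.card_image_of_injective S2 hM.inj]
    refine ht (2 * Y) (by linarith) _ ?_
    intro N hN
    obtain ⟨x, hx, rfl⟩ := Finset.mem_image.1 hN
    obtain ⟨hx1, hx2⟩ := Finset.mem_filter.1 hx
    obtain ⟨hb, n, hn, hu, hd⟩ := hS x hx1
    have hn0 : n ≠ 0 := by
      rintro rfl
      push_cast at hn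
      linarith
    set g := Nat.gcd n 4 with hg
    have hg0 : 0 < g := Nat.gcd_pos_of_pos_right _ (by norm_num)
    have hg4 : g ≤ 4 := Nat.gcd_le_right _ (by norm_num)
    set m := n / g with hm
    have hmg : m * g = n := Nat.div_mul_cancel (Nat.gcd_dvd_left _ _)
    refine ⟨m, hM.sy x, hM.bd x Y hb, ?_, ?_, ?_, ?_⟩
    · push Not at hx2
      exact hx2
    · have e1 : (n : ℝ) = m * g := by exact_mod_cast hmg.symm
      have e2 : (g : ℝ) ≤ 4 := by exact_mod_cast hg4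
      have e3 : (0 : ℝ) ≤ m := Nat.cast_nonneg _
      have e4 : (m : ℝ) * g ≤ m * 4 := mul_le_mul_of_nonneg_left e2 e3
      linarith
    · intro a b c d
      have e1 := hd a b c d
      rw [Int.natCast_dvd] at e1 ⊢
      rw [Int.natAbs_mul] at e1
      have e2 : n ∣ n * (mr (M x) a b c d).natAbs := dvd_mul_right _ _
      have e3 := Nat.dvd_gcd e2 e1
      rw [Nat.gcd_mul_right] at e3
      have e4 : m * g ∣ (mr (M x) a b c d).natAbs * g := by
        rw [hmg, mul_comm]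
        exact e3
      exact Nat.dvd_of_mul_dvd_mul_right hg0 e4
    · intro p w pp hw
      rcases Nat.eq_zero_or_pos w with rfl | hw0
      · exact ⟨0, by simp⟩
      have hpm : p ∣ m := (dvd_pow_self p hw0.ne').trans hw
      have hpn : p ∣ n := hpm.trans ⟨g, hmg.symm⟩
      obtain ⟨i, hi⟩ := hu p pp (by exact_mod_cast hpn)
      refine ⟨i, ?_⟩
      rw [Int.gcd_def, Int.natAbs_natCast, hM.dl]
      have hco : Nat.Coprime (x (dg i)).natAbs (p ^ w) := by
        apply Nat.Coprime.pow_right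
        rw [Nat.coprime_comm, Nat.Prime.coprime_iff_not_dvd pp]
        intro h3
        exact hi (Int.natCast_dvd.2 h3)
      have e1 : Nat.gcd (2 * (x (dg i)).natAbs) (p ^ w) = Nat.gcd 2 (p ^ w) :=
        Nat.Coprime.gcd_mul_right_cancel 2 hco
      rw [e1]
      exact (Nat.gcd_le_left _ (by norm_num)).trans (by norm_num)
  have h3 : (2 * Y) ^ (5 + ε) = 2 ^ (5 + ε) * Y ^ (5 + ε) := Real.mul_rpow (by norm_num) hY0.le
  have h4 : Y ^ 4 ≤ Y ^ (5 + ε) := by
    rw [← Real.rpow_natCast]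
    exact Real.rpow_le_rpow_of_exponent_le hY (by norm_num; linarith)
  have h5 : (S.card : ℝ) = S1.card + S2.card := by rw [h0]; push_cast; ring
  rw [h3] at h2
  have h6 : (2 * Y) ^ 4 = 16 * Y ^ 4 := by ring
  rw [h6] at h1
  nlinarith

theorem RR_inj : Function.Injective fun x : Fin 10 → ℤ => (Matrix.of (RR x) : Matrix (Fin 4) (Fin 4) ℤ) := by
  intro x y h
  have e : ∀ i j, RR x i j = RR y i j := fun i j => congrFun (congrFun h i) j
  have e00 := e 0 0
  have e11 := e 1 1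
  have e22 := e 2 2
  have e33 := e 3 3
  have e01 := e 0 1
  have e02 := e 0 2
  have e03 := e 0 3
  have e12 := e 1 2
  have e13 := e 1 3
  have e23 := e 2 3
  simp only [RR, Matrix.cons_val_zero, Matrix.cons_val_one, Matrix.cons_val] at e00 e11 e22 e33 e01 e02 e03 e12 e13 e23
  funext m
  fin_cases m <;> simp only [Fin.isValue, Fin.zero_eta, Fin.mk_one, Fin.reduceFinMk] <;> omega

theorem Mx_RR : Mx fun x => (Matrix.of (RR x) : Matrix (Fin 4) (Fin 4) ℤ) where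
  inj := RR_inj
  sy x i j := RR_symm x i j
  bd x Y h i j := by
    have h0 := abs_le.1 (h 0)
    have h1 := abs_le.1 (h 1)
    have h2 := abs_le.1 (h 2)
    have h3 := abs_le.1 (h 3)
    have h4 := abs_le.1 (h 4)
    have h5 := abs_le.1 (h 5)
    have h6 := abs_le.1 (h 6)
    have h7 := abs_le.1 (h 7)
    have h8 := abs_le.1 (h 8)
    have h9 := abs_le.1 (h 9)
    rw [abs_le]
    fin_cases i <;> fin_cases j <;>
      simp only [RR, Matrix.of_apply, Matrix.cons_val', Fin.isValue, Fin.zero_eta, Fin.mk_one, Fin.reduceFinMk,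
        Matrix.cons_val_zero, Matrix.cons_val_one, Matrix.cons_val] <;> push_cast <;>
      constructor <;> linarith
  dl x i := by
    simp only [Matrix.of_apply]
    rw [RR_diag, Int.natAbs_mul]
    rfl

theorem SS_inj : Function.Injective fun x : Fin 10 → ℤ => SS x := by
  intro x y h
  have e : ∀ i j, SS x i j = SS y i j := fun i j => congrFun (congrFun h i) j
  have e00 := e 0 0
  have e11 := e 1 1
  have e22 := e 2 2
  have e33 := e 3 3
  have e01 := e 0 1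
  have e02 := e 0 2
  have e03 := e 0 3
  have e12 := e 1 2
  have e13 := e 1 3
  have e23 := e 2 3
  simp only [SS, Matrix.of_apply, Matrix.cons_val', Fin.isValue, Matrix.cons_val_zero, Matrix.cons_val_one,
    Matrix.cons_val] at e00 e11 e22 e33 e01 e02 e03 e12 e13 e23
  funext m
  fin_cases m <;> simp only [Fin.isValue, Fin.zero_eta, Fin.mk_one, Fin.reduceFinMk] <;> omega

theorem Mx_SS : Mx fun x => SS x where
  inj := SS_inj
  sy x i j := by fin_cases i <;> fin_cases j <;> rfl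
  bd x Y h i j := by
    have h0 := abs_le.1 (h 0)
    have h1 := abs_le.1 (h 1)
    have h2 := abs_le.1 (h 2)
    have h3 := abs_le.1 (h 3)
    have h4 := abs_le.1 (h 4)
    have h5 := abs_le.1 (h 5)
    have h6 := abs_le.1 (h 6)
    have h7 := abs_le.1 (h 7)
    have h8 := abs_le.1 (h 8)
    have h9 := abs_le.1 (h 9)
    rw [abs_le]
    fin_cases i <;> fin_cases j <;>
      simp only [SS, Matrix.of_apply, Matrix.cons_val', Fin.isValue, Fin.zero_eta, Fin.mk_one, Fin.reduceFinMk,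
        Matrix.cons_val_zero, Matrix.cons_val_one, Matrix.cons_val] <;> push_cast <;>
      constructor <;> linarith
  dl x i := by
    rw [SS_diag, Int.natAbs_mul, Int.natAbs_mul]
    fin_cases i <;> simp [sgd]

/-- LEMMA TL for `R(x)` -/
theorem tail_R {ε : ℝ} (hε : 0 < ε) : ∃ C : ℝ, 1 ≤ C ∧ ∀ Y : ℝ, 1 ≤ Y → ∀ S : Finset (Fin 10 → ℤ),
    (∀ x ∈ S, (∀ j, |(x j : ℝ)| ≤ Y) ∧ ∃ n : ℕ, Y < (n : ℝ) ∧ RK (n : ℤ) x) →
    (S.card : ℝ) ≤ C * Y ^ (5 + ε) := by
  obtain ⟨C, hC, h⟩ := tail_x Mx_RR hε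
  refine ⟨C, hC, fun Y hY S hS => h Y hY S fun x hx => ?_⟩
  obtain ⟨hb, n, hn, hr⟩ := hS x hx
  exact ⟨hb, n, hn, hr.1, fun a b c d => RK_minor hr a b c d⟩

theorem SK_minor {n : ℤ} {x : Fin 10 → ℤ} (h : SK n x) (a b c d : Fin 4) :
    n ∣ 4 * mr (SS x) a b c d := by
  rw [← Int.natAbs_dvd_natAbs]
  rw [Nat.dvd_iff_prime_pow_dvd_dvd]
  intro p w pp hd
  rcases Nat.eq_zero_or_pos w with rfl | hw
  · simp
  have hd' : ((p ^ w : ℕ) : ℤ) ∣ n := Int.natCast_dvd.2 hd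
  have hp : (p : ℤ) ∣ n := by
    refine dvd_trans ?_ hd'
    push_cast
    exact dvd_pow_self _ hw.ne'
  obtain ⟨i, hi⟩ := h.1 p pp hp
  have hl : ∀ j k, ((p ^ w : ℕ) : ℤ) ∣ SS x i i * SS x j k - SS x i j * SS x i k :=
    fun j k => hd'.trans (h.2 i j k)
  rw [← Int.natCast_dvd]
  apply cop_cancel pp hi
  have e : x (dg i) ^ 2 * (4 * mr (SS x) a b c d) =
      (SS x i i * SS x a c - SS x i a * SS x i c) * (SS x i i * SS x b d) +
      (SS x i a * SS x i c) * (SS x i i * SS x b d - SS x i b * SS x i d) -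
      (SS x i i * SS x a d - SS x i a * SS x i d) * (SS x i i * SS x b c) -
      (SS x i a * SS x i d) * (SS x i i * SS x b c - SS x i b * SS x i c) := by
    have hs : sgd i * sgd i = 1 := sgd_sq i
    unfold mr
    rw [SS_diag]
    linear_combination (-(4 * x (dg i) ^ 2 * (SS x a c * SS x b d - SS x a d * SS x b c))) * hs
  rw [e]
  exact dvd_sub (dvd_sub (dvd_add (Dvd.dvd.mul_right (hl a c) _) (Dvd.dvd.mul_left (hl b d) _))
    (Dvd.dvd.mul_right (hl a d) _)) (Dvd.dvd.mul_left (hl b c) _)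

/-- LEMMA TL for `S(x)` -/
theorem tail_S {ε : ℝ} (hε : 0 < ε) : ∃ C : ℝ, 1 ≤ C ∧ ∀ Y : ℝ, 1 ≤ Y → ∀ S : Finset (Fin 10 → ℤ),
    (∀ x ∈ S, (∀ j, |(x j : ℝ)| ≤ Y) ∧ ∃ n : ℕ, Y < (n : ℝ) ∧ SK (n : ℤ) x) →
    (S.card : ℝ) ≤ C * Y ^ (5 + ε) := by
  obtain ⟨C, hC, h⟩ := tail_x Mx_SS hε
  refine ⟨C, hC, fun Y hY S hS => h Y hY S fun x hx => ?_⟩
  obtain ⟨hb, n, hn, hr⟩ := hS x hx
  exact ⟨hb, n, hn, hr.1, fun a b c d => SK_minor hr a b c d⟩

end Pool.Agent.PP5V
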