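import Pool.Agent.PP5V.Wa

/-!
# PP5 (D'), lemma W: few `m` have a small real compound `b(m)`
-/

set_option autoImplicit false

namespace Pool.Agent.PP5V

open Matrix Pool.Agent.PP5P

/-- the effect of a diagonal change of variables on the compound form -/
theorem Ph_scale (G : Matrix (Fin 4) (Fin 4) ℝ) (l : Fin 4 → ℝ) (hl : ∀ i, 0 < l i)
    (u v w z : Fin 4 → ℝ) :
    Ph G (fun a => l a * u a) (fun a => l a * v a) (fun a => l a * w a) (fun a => l a * z a) =
      (∏ i, l i) ^ 2 * Ph (Matrix.of fun a b => G a b / (l a * l b)) u v w z := by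
  have h0 := (hl 0).ne'
  have h1 := (hl 1).ne'
  have h2 := (hl 2).ne'
  have h3 := (hl 3).ne'
  simp only [Ph, pv, MM, mr, dotProduct, mulVec, Fin.sum_univ_succ, Fin.prod_univ_succ]
  simp
  field_simp

theorem Ev_scale (l : Fin 4 → ℝ) (i : Fin 4) :
    Ev l i = fun a => l a * (Pi.single i 1 : Fin 4 → ℝ) a := by
  ext a
  by_cases h : a = i
  · subst h; simp [Ev]
  · simp [Ev, h]

theorem Icc_card {B : ℝ} (hB : 0 ≤ B) : ((Finset.Icc (-⌊B⌋) ⌊B⌋).card : ℝ) ≤ 1 + 2 * B := by
  rw [Int.card_Icc]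
  have h0 : 0 ≤ ⌊B⌋ := Int.floor_nonneg.2 hB
  have e : ((⌊B⌋ + 1 - -⌊B⌋).toNat : ℤ) = ⌊B⌋ + 1 - -⌊B⌋ := Int.toNat_of_nonneg (by linarith)
  have e2 : (((⌊B⌋ + 1 - -⌊B⌋).toNat : ℕ) : ℝ) = (⌊B⌋ : ℝ) + 1 + ⌊B⌋ := by
    have := congrArg (Int.cast (R := ℝ)) e
    rw [Int.cast_natCast] at this
    rw [this]
    push_cast
    ring
  rw [e2]
  have := Int.floor_le B
  linarith

theorem mem_Icc_of_abs {B : ℝ} {n : ℤ} (h : |(n : ℝ)| ≤ B) : n ∈ Finset.Icc (-⌊B⌋) ⌊B⌋ := by
  rw [Finset.mem_Icc]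
  have h1 := abs_le.1 h
  have h2 : n ≤ ⌊B⌋ := Int.le_floor.2 h1.2
  have h3 : -n ≤ ⌊B⌋ := Int.le_floor.2 (by push_cast; linarith)
  constructor <;> linarith

/-- LEMMA W.  Few `m` in the box `|m i| ≤ u l i` have all `|Ph G m (Ev l i) m (Ev l j)| ≤ b`. -/
theorem wcount {G : Matrix (Fin 4) (Fin 4) ℝ} (hG : ∀ i j, G i j = G j i) {l : Fin 4 → ℝ}
    (hl : ∀ i, 0 < l i) {T p u b : ℝ} (hT : 0 < T) (hp : 0 < p) (hu : 0 ≤ u) (hb : 0 ≤ b)
    (hmin : ∃ i j k k', p ≤ |mr G i j k k'| * T ^ 2 / (l i * l j * l k * l k'))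
    (X : Finset (Fin 4 → ℤ)) (hX : ∀ m ∈ X, (∀ i, |(m i : ℝ)| ≤ u * l i) ∧
      ∀ i j, |Ph G (fun a => (m a : ℝ)) (Ev l i) (fun a => (m a : ℝ)) (Ev l j)| ≤ b) :
    ∃ i, (X.card : ℝ) ≤ (∏ j ∈ Finset.univ.erase i, (1 + 2 * u * l j)) *
      (2 + 8 * (l i * T / ∏ j, l j) * √(b / p)) := by
  classical
  have hPr : 0 < ∏ j, l j := Finset.prod_pos fun j _ => hl j
  set g : Matrix (Fin 4) (Fin 4) ℝ := Matrix.of fun a b => G a b / (l a * l b) with hg
  have hgs : ∀ i j, g i j = g j i := by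
    intro i j
    simp only [hg, Matrix.of_apply, hG i j, mul_comm (l i)]
  -- the index
  have hex : ∃ i k k' : Fin 4, p / (8 * T ^ 2) <
      |Ph g (Pi.single i 1) (Pi.single k 1) (Pi.single i 1) (Pi.single k' 1)| := by
    by_contra hcon
    push Not at hcon
    obtain ⟨a, b', c, d, hm⟩ := hmin
    have h1 := share4 hgs (P := p / (8 * T ^ 2)) (by positivity) hcon a b' c d
    have h2 : |mr g a b' c d| = |mr G a b' c d| / (l a * l b' * l c * l d) := by
      have e : mr g a b' c d = mr G a b' c d / (l a * l b' * l c * l d) := by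
        have := (hl a).ne'
        have := (hl b').ne'
        have := (hl c).ne'
        have := (hl d).ne'
        simp only [mr, hg, Matrix.of_apply]
        field_simp
      rw [e, abs_div, abs_of_pos (mul_pos (mul_pos (mul_pos (hl a) (hl b')) (hl c)) (hl d))]
    rw [h2] at h1
    have hd : 0 < l a * l b' * l c * l d := mul_pos (mul_pos (mul_pos (hl a) (hl b')) (hl c)) (hl d)
    have h3 : p ≤ (|mr G a b' c d| / (l a * l b' * l c * l d)) * T ^ 2 := by
      calc p ≤ _ := hm
        _ = _ := by ring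
    have h4 : (|mr G a b' c d| / (l a * l b' * l c * l d)) * T ^ 2 ≤ 4 * (p / (8 * T ^ 2)) * T ^ 2 :=
      mul_le_mul_of_nonneg_right h1 (by positivity)
    have h5 : 4 * (p / (8 * T ^ 2)) * T ^ 2 = p / 2 := by field_simp; ring
    linarith
  obtain ⟨i, k, k', hk⟩ := hex
  refine ⟨i, ?_⟩
  set α0 := Ph g (Pi.single i 1) (Pi.single k 1) (Pi.single i 1) (Pi.single k' 1) with hα0
  have hα00 : α0 ≠ 0 := by
    intro h
    rw [h, abs_zero] at hk
    have : 0 < p / (8 * T ^ 2) := by positivity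
    linarith
  have hli := hl i
  -- the projection
  set f : (Fin 4 → ℤ) → (Fin 4 → ℤ) := fun m => Function.update m i 0 with hf
  have himg : (((X.image f).card : ℕ) : ℝ) ≤ ∏ j ∈ Finset.univ.erase i, (1 + 2 * u * l j) := by
    have hsub : X.image f ⊆ Fintype.piFinset fun j =>
        if j = i then {0} else Finset.Icc (-⌊u * l j⌋) ⌊u * l j⌋ := by
      intro t ht
      obtain ⟨m, hm, rfl⟩ := Finset.mem_image.1 ht
      rw [Fintype.mem_piFinset]
      intro j
      by_cases hj : j = i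
      · subst hj; simp [hf]
      · simp only [hf, Function.update_of_ne hj, hj, if_false]
        exact mem_Icc_of_abs ((hX m hm).1 j)
    have h1 := Finset.card_le_card hsub
    rw [Fintype.card_piFinset, ← Finset.mul_prod_erase _ _ (Finset.mem_univ i)] at h1
    simp only [if_true, Finset.card_singleton, one_mul] at h1
    have h2 : (((X.image f).card : ℕ) : ℝ) ≤ ∏ j ∈ Finset.univ.erase i,
        (((if j = i then ({0} : Finset ℤ) else Finset.Icc (-⌊u * l j⌋) ⌊u * l j⌋).card : ℕ) : ℝ) := by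
      exact_mod_cast h1
    refine h2.trans (Finset.prod_le_prod (fun _ _ => Nat.cast_nonneg _) fun j hj => ?_)
    rw [if_neg (Finset.ne_of_mem_erase hj)]
    have h3 := Icc_card (B := u * l j) (mul_nonneg hu (hl j).le)
    linarith
  -- the fibres
  have hfib : ∀ t ∈ X.image f, (((X.filter (fun m => f m = t)).card : ℕ) : ℝ) ≤
      2 + 8 * (l i * T / ∏ j, l j) * √(b / p) := by
    intro t ht
    set F := X.filter (fun m => f m = t) with hF
    have hinj : F.card = (F.image (fun m => m i)).card := by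
      rw [Finset.card_image_of_injOn]
      intro m hm m' hm' he
      have e1 : f m = t := (Finset.mem_filter.1 hm).2
      have e2 : f m' = t := (Finset.mem_filter.1 hm').2
      funext j
      by_cases hj : j = i
      · subst hj; exact he
      · have := congrFun (e1.trans e2.symm) j
        simpa [hf, Function.update_of_ne hj] using this
    rw [hinj]
    set μ : Fin 4 → ℝ := fun a => (t a : ℝ) / l a with hμ
    have hq := quad_count (F.image (fun m => m i)) (α := α0 / l i ^ 2)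
      (β := (Ph g (Pi.single i 1) (Pi.single k 1) μ (Pi.single k' 1) +
        Ph g μ (Pi.single k 1) (Pi.single i 1) (Pi.single k' 1)) / l i)
      (γ := Ph g μ (Pi.single k 1) μ (Pi.single k' 1)) (b := b / (∏ j, l j) ^ 2)
      (div_ne_zero hα00 (by positivity)) (by
        intro s hs
        obtain ⟨m, hm, rfl⟩ := Finset.mem_image.1 hs
        have hmX := (Finset.mem_filter.1 hm).1
        have hmt : f m = t := (Finset.mem_filter.1 hm).2
        have h1 := (hX m hmX).2 k k'
        have e1 : (fun a => (m a : ℝ)) = fun a => l a * (μ + ((m i : ℝ) / l i) • (Pi.single i 1 : Fin 4 → ℝ)) a := by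
          funext a
          by_cases ha : a = i
          · subst ha
            have : t a = 0 := by rw [← hmt]; simp [hf]
            simp only [Pi.add_apply, hμ, this, Int.cast_zero, zero_div, Pi.smul_apply, Pi.single_eq_same,
              smul_eq_mul, mul_one, zero_add]
            rw [mul_div_cancel₀ _ (hl a).ne']
          · have : t a = m a := by rw [← hmt]; simp [hf, Function.update_of_ne ha]
            simp only [Pi.add_apply, hμ, this, Pi.smul_apply, Pi.single_eq_of_ne ha, smul_eq_mul,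
              mul_zero, add_zero]
            rw [mul_div_cancel₀ _ (hl a).ne']
        rw [e1, Ev_scale, Ev_scale, Ph_scale G l hl, ← hg] at h1
        rw [abs_mul, abs_of_nonneg (by positivity : 0 ≤ (∏ j, l j) ^ 2)] at h1
        have e2 : Ph g (μ + ((m i : ℝ) / l i) • (Pi.single i 1 : Fin 4 → ℝ)) (Pi.single k 1)
            (μ + ((m i : ℝ) / l i) • (Pi.single i 1 : Fin 4 → ℝ)) (Pi.single k' 1) =
            α0 / l i ^ 2 * (m i : ℝ) ^ 2 + (Ph g (Pi.single i 1) (Pi.single k 1) μ (Pi.single k' 1) +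
              Ph g μ (Pi.single k 1) (Pi.single i 1) (Pi.single k' 1)) / l i * (m i : ℝ) +
              Ph g μ (Pi.single k 1) μ (Pi.single k' 1) := by
          rw [Ph_add1, Ph_add3, Ph_add3, Ph_smul1, Ph_smul1, Ph_smul3, Ph_smul3, ← hα0]
          ring
        rw [← e2, le_div_iff₀ (by positivity), mul_comm]
        exact h1)
    refine hq.trans ?_
    have h2 : |α0 / l i ^ 2| = |α0| / l i ^ 2 := by
      rw [abs_div, abs_of_pos (show (0 : ℝ) < l i ^ 2 by positivity)]
    have h3 : 2 * (b / (∏ j, l j) ^ 2) / |α0 / l i ^ 2| ≤ (4 * (l i * T / ∏ j, l j)) ^ 2 * (b / p) := by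
      rw [h2]
      have hα1 : 0 < |α0| := abs_pos.2 hα00
      rw [div_div_eq_mul_div, div_le_iff₀ hα1]
      have h4 : p ≤ 8 * T ^ 2 * |α0| := by
        rw [div_lt_iff₀ (by positivity)] at hk
        linarith
      have e : (4 * (l i * T / ∏ j, l j)) ^ 2 * (b / p) * |α0| =
          (2 * (b / (∏ j, l j) ^ 2) * l i ^ 2) * (8 * T ^ 2 * |α0| / p) := by
        field_simp
        ring
      rw [e]
      have h5 : 1 ≤ 8 * T ^ 2 * |α0| / p := by rw [le_div_iff₀ hp]; linarith
      have h6 : 0 ≤ 2 * (b / (∏ j, l j) ^ 2) * l i ^ 2 := by positivity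
      nlinarith
    have h7 : √(2 * (b / (∏ j, l j) ^ 2) / |α0 / l i ^ 2|) ≤ 4 * (l i * T / ∏ j, l j) * √(b / p) := by
      refine (Real.sqrt_le_sqrt h3).trans (le_of_eq ?_)
      rw [Real.sqrt_mul (by positivity), Real.sqrt_sq (by positivity)]
    linarith
  calc (X.card : ℝ) = ∑ t ∈ X.image f, (((X.filter (fun m => f m = t)).card : ℕ) : ℝ) := by
        rw [Finset.card_eq_sum_card_image f X]; push_cast; rfl
    _ ≤ ∑ _t ∈ X.image f, (2 + 8 * (l i * T / ∏ j, l j) * √(b / p)) := Finset.sum_le_sum hfib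
    _ = ((X.image f).card : ℝ) * (2 + 8 * (l i * T / ∏ j, l j) * √(b / p)) := by
        rw [Finset.sum_const, nsmul_eq_mul]
    _ ≤ _ := mul_le_mul_of_nonneg_right himg (by positivity)

end Pool.Agent.PP5V
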