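import Pool.Agent.PP5V.Le
import Pool.Agent.PP5V.Wb
import Pool.Agent.PP5P.HEd
import Pool.Agent.PP5X.DsF
import Pool.Agent.PP5X.FzB

/-!
# PP5 (D'), exceptional `x`: the counts CL0, CL2, C0, CE, CS
-/

set_option autoImplicit false

namespace Pool.Agent.PP5V

open Matrix Pool.Agent.PP5S Pool.Agent.PP5B Pool.Agent.PP5P

/-- the size of `x` -/
theorem Xat_le {Cx t1 t2 T : ℝ} {Φ : ℝ → (Fin 10 → ℤ) → Matrix (Fin 4) (Fin 4) ℤ → (Fin 4 → ℝ) → ℕ → Prop}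
    {x : Fin 10 → ℤ} (h1 : 1 ≤ t1) (h2 : 1 ≤ t2) (h : Xat Cx t1 t2 T Φ x) (j : Fin 10) :
    |(x j : ℝ)| ≤ T * (t1 * t2) ^ 2 := by
  obtain ⟨_, T', b, G, l, k, hD, hT, _, _⟩ := h
  refine (hD.Tle j).trans ?_
  have h3 := (tx_le h1 h2 j).2
  have h5 : 0 ≤ PP5.tx t1 t2 j := (PP5.tx_pos (by linarith) (by linarith) j).le
  calc T' * PP5.tx t1 t2 j ≤ T * PP5.tx t1 t2 j := mul_le_mul_of_nonneg_right hT h5
    _ ≤ T * (t1 * t2) ^ 2 := mul_le_mul_of_nonneg_left h3 (hD.T0.le.trans hT)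

/-- choice of the data -/
theorem Xat_choice {Cx t1 t2 T : ℝ}
    {Φ : ℝ → (Fin 10 → ℤ) → Matrix (Fin 4) (Fin 4) ℤ → (Fin 4 → ℝ) → ℕ → Prop} :
    ∃ (Tf : (Fin 10 → ℤ) → ℝ) (bf : (Fin 10 → ℤ) → Fin 4 → PP5.Sp)
      (Gf : (Fin 10 → ℤ) → Matrix (Fin 4) (Fin 4) ℤ) (lf : (Fin 10 → ℤ) → Fin 4 → ℝ)
      (kf : (Fin 10 → ℤ) → ℕ), ∀ x, Xat Cx t1 t2 T Φ x → Xok x ∧
        XD Cx t1 t2 (Tf x) x (bf x) (Gf x) (lf x) (kf x) ∧ Tf x ≤ T ∧ T ≤ 2 * Tf x ∧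
        Φ (Tf x) x (Gf x) (lf x) (kf x) := by
  classical
  have h : ∀ x : Fin 10 → ℤ, ∃ (T' : ℝ) (b : Fin 4 → PP5.Sp) (G : Matrix (Fin 4) (Fin 4) ℤ)
      (l : Fin 4 → ℝ) (k : ℕ), Xat Cx t1 t2 T Φ x → Xok x ∧
        XD Cx t1 t2 T' x b G l k ∧ T' ≤ T ∧ T ≤ 2 * T' ∧ Φ T' x G l k := by
    intro x
    by_cases hx : Xat Cx t1 t2 T Φ x
    · obtain ⟨h0, T', b, G, l, k, h1⟩ := hx
      exact ⟨T', b, G, l, k, fun _ => ⟨h0, h1⟩⟩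
    · exact ⟨0, fun _ _ => 0, 0, fun _ => 0, 0, fun h => absurd h hx⟩
  choose Tf bf Gf lf kf hf using h
  exact ⟨Tf, bf, Gf, lf, kf, hf⟩

theorem cl2 (Cx : ℝ) : CL2 Cx := by
  intro ε hε
  obtain ⟨C, hC, h⟩ := l2_count (Cx := Cx) (ε := min ε 1) (lt_min hε one_pos) (min_le_right _ _)
  refine ⟨18, C, by norm_num, hC, ?_⟩
  intro t1 t2 T Q h1 h2 hT hQ S hS
  have hT0 : 0 < T := by linarith
  have hQ0 : 0 < Q := by linarith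
  have hK : 1 ≤ t1 * t2 := by nlinarith
  obtain ⟨Tf, bf, Gf, lf, kf, hf⟩ := Xat_choice (Cx := Cx) (t1 := t1) (t2 := t2) (T := T)
    (Φ := fun T' _ _ l _ => Q * l 2 ≤ T')
  have key := h t1 t2 T (T / Q) h1 h2 hT0 (by positivity) Tf bf Gf lf kf S (fun x hx => by
    obtain ⟨a, b, c, d, e⟩ := hf x (hS x hx)
    refine ⟨a, b, c, ?_⟩
    rw [le_div_iff₀ hQ0]
    linarith)
  refine key.trans ?_
  have e0 : (t1 * t2) ^ (18 : ℝ) = (t1 * t2) ^ 18 := by rw [← Real.rpow_natCast]; norm_num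
  have e1 : T ^ (4 + min ε 1) * T ^ 4 ≤ T ^ (8 + ε) := by
    have : T ^ (4 + min ε 1) * T ^ 4 = T ^ (8 + min ε 1) := by
      rw [← Real.rpow_natCast T 4, ← Real.rpow_add hT0]
      congr 1
      push_cast
      ring
    rw [this]
    exact Real.rpow_le_rpow_of_exponent_le hT (by have := min_le_left ε 1; linarith)
  rw [e0]
  calc C * (t1 * t2) ^ 18 * T ^ (4 + min ε 1) * (T / Q) ^ 4
      = C * (t1 * t2) ^ 18 * (T ^ (4 + min ε 1) * T ^ 4) * Q⁻¹ ^ 4 := by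
        rw [div_eq_mul_inv]; ring
    _ ≤ C * (t1 * t2) ^ 18 * T ^ (8 + ε) * Q⁻¹ ^ 4 := by gcongr

theorem cl0 (Cx : ℝ) : CL0 Cx := by
  intro ε hε
  obtain ⟨C, hC, h⟩ := l0_count (Cx := Cx) (ε := min ε 1) (lt_min hε one_pos) (min_le_right _ _)
  refine ⟨18, 2 * C, by norm_num, by linarith, ?_⟩
  intro t1 t2 T Q h1 h2 hT hQ S hS
  have hT0 : 0 < T := by linarith
  have hQ0 : 0 < Q := by linarith
  have hK : 1 ≤ t1 * t2 := by nlinarith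
  obtain ⟨Tf, bf, Gf, lf, kf, hf⟩ := Xat_choice (Cx := Cx) (t1 := t1) (t2 := t2) (T := T)
    (Φ := fun T' _ _ l _ => Q * l 0 ≤ T')
  have key := h t1 t2 T (T / Q) h1 h2 hT0 (by positivity) Tf bf Gf lf kf S (fun x hx => by
    obtain ⟨a, b, c, d, e⟩ := hf x (hS x hx)
    refine ⟨a, b, c, ?_⟩
    rw [le_div_iff₀ hQ0]
    linarith)
  refine key.trans ?_
  have e0 : (t1 * t2) ^ (18 : ℝ) = (t1 * t2) ^ 18 := by rw [← Real.rpow_natCast]; norm_num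
  have e1 : T ^ (4 + min ε 1) * T ^ 4 ≤ T ^ (8 + ε) := by
    have : T ^ (4 + min ε 1) * T ^ 4 = T ^ (8 + min ε 1) := by
      rw [← Real.rpow_natCast T 4, ← Real.rpow_add hT0]
      congr 1
      push_cast
      ring
    rw [this]
    exact Real.rpow_le_rpow_of_exponent_le hT (by have := min_le_left ε 1; linarith)
  have e2 : (T / Q) ^ 4 + T * (T / Q) ^ 3 ≤ 2 * T ^ 4 * Q⁻¹ ^ 3 := by
    rw [div_eq_mul_inv]
    have hi : Q⁻¹ ≤ 1 := inv_le_one_of_one_le₀ hQ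
    have hi0 : 0 ≤ Q⁻¹ := by positivity
    have : Q⁻¹ ^ 4 ≤ Q⁻¹ ^ 3 := pow_le_pow_of_le_one hi0 hi (by norm_num)
    have h3 : T ^ 4 * Q⁻¹ ^ 4 ≤ T ^ 4 * Q⁻¹ ^ 3 := mul_le_mul_of_nonneg_left this (by positivity)
    calc (T * Q⁻¹) ^ 4 + T * (T * Q⁻¹) ^ 3 = T ^ 4 * Q⁻¹ ^ 4 + T ^ 4 * Q⁻¹ ^ 3 := by ring
      _ ≤ _ := by linarith
  rw [e0]
  have e3 : 0 ≤ Q⁻¹ ^ 3 := by positivity
  calc C * (t1 * t2) ^ 18 * T ^ (4 + min ε 1) * ((T / Q) ^ 4 + T * (T / Q) ^ 3)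
      ≤ C * (t1 * t2) ^ 18 * T ^ (4 + min ε 1) * (2 * T ^ 4 * Q⁻¹ ^ 3) :=
        mul_le_mul_of_nonneg_left e2 (by positivity)
    _ = 2 * C * (t1 * t2) ^ 18 * (T ^ (4 + min ε 1) * T ^ 4) * Q⁻¹ ^ 3 := by ring
    _ ≤ 2 * C * (t1 * t2) ^ 18 * T ^ (8 + ε) * Q⁻¹ ^ 3 := by gcongr

theorem c0x (Cx : ℝ) : C0x Cx := by
  intro ε hε
  obtain ⟨C, hC, h⟩ := PP5D.ten ε hε
  refine ⟨16 + 2 * ε, C + 1, by linarith, by linarith, ?_⟩
  intro t1 t2 T Q h1 h2 hT hQ S hS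
  have hT0 : 0 < T := by linarith
  have hK : 1 ≤ t1 * t2 := by nlinarith
  have hK0 : 0 < t1 * t2 := by linarith
  have hTK : 1 ≤ T * (t1 * t2) ^ 2 := by
    have : 1 ≤ (t1 * t2) ^ 2 := one_le_pow₀ hK
    nlinarith
  have key := h (T * (t1 * t2) ^ 2) hTK S (fun x hx => by
    have hX := hS x hx
    refine ⟨?_, fun j => Xat_le h1 h2 hX j⟩
    have := hX.1.ff
    unfold PP5D.F10
    unfold PP5L.FF at this
    linear_combination this)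
  refine key.trans ?_
  have e1 : (T * (t1 * t2) ^ 2) ^ ε * (T * (t1 * t2) ^ 2) ^ 8 = (t1 * t2) ^ (16 + 2 * ε) * T ^ (8 + ε) := by
    rw [Real.mul_rpow hT0.le (by positivity), Real.rpow_add hT0, Real.rpow_add hK0,
      ← Real.rpow_natCast (t1 * t2) 2, ← Real.rpow_mul hK0.le]
    have a1 : T ^ (8 : ℝ) = T ^ 8 := by rw [← Real.rpow_natCast]; norm_num
    have a2 : (t1 * t2) ^ (16 : ℝ) = (t1 * t2) ^ 16 := by rw [← Real.rpow_natCast]; norm_num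
    have a3 : (t1 * t2) ^ (((2 : ℕ) : ℝ) * ε) = (t1 * t2) ^ (2 * ε) := by norm_num
    have a4 : (t1 * t2) ^ ((2 : ℕ) : ℝ) = (t1 * t2) ^ 2 := Real.rpow_natCast _ _
    rw [a1, a2, a3, a4]
    ring
  rw [mul_assoc, e1]
  have e2 : 0 ≤ (t1 * t2) ^ (16 + 2 * ε) * T ^ (8 + ε) := by positivity
  nlinarith

/-- the integer box -/
theorem N_box {T K : ℝ} (hT : 1 ≤ T) (hK : 1 ≤ K) : 1 ≤ ⌈T * K ^ 2⌉₊ ∧
    T * K ^ 2 ≤ (⌈T * K ^ 2⌉₊ : ℝ) ∧ (⌈T * K ^ 2⌉₊ : ℝ) ≤ 2 * (T * K ^ 2) := by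
  have h1 : 1 ≤ K ^ 2 := one_le_pow₀ hK
  have h2 : 1 ≤ T * K ^ 2 := by nlinarith
  refine ⟨Nat.one_le_iff_ne_zero.2 (Nat.ceil_pos.2 (by linarith)).ne', Nat.le_ceil _, ?_⟩
  have := (Nat.ceil_lt_add_one (show 0 ≤ T * K ^ 2 by linarith)).le
  linarith

theorem int_le_of {z : ℤ} {N : ℕ} (h : |(z : ℝ)| ≤ N) : |z| ≤ (N : ℤ) := by
  have : ((|z| : ℤ) : ℝ) ≤ ((N : ℤ) : ℝ) := by
    rw [Int.cast_abs]
    exact_mod_cast h
  exact_mod_cast this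

theorem ce (Cx : ℝ) : CE Cx := by
  intro ε hε
  obtain ⟨C, hC, h⟩ := PP5X.dsm_count hε
  refine ⟨16 + 2 * ε, C * 2 ^ ε * 2 ^ 8 + 1, by linarith, by
    have : 0 ≤ C * 2 ^ ε * 2 ^ 8 := by positivity
    linarith, ?_⟩
  intro t1 t2 T Q h1 h2 hT hQ S hS
  have hT0 : 0 < T := by linarith
  have hQ0 : 0 < Q := by linarith
  have hK : 1 ≤ t1 * t2 := by nlinarith
  set K := t1 * t2 with hKdef
  have hK0 : 0 < K := by linarith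
  obtain ⟨n1, n2, n3⟩ := N_box hT hK
  set N : ℕ := ⌈T * K ^ 2⌉₊ with hN
  have hN0 : (0 : ℝ) < N := by exact_mod_cast n1
  have hNT : T ≤ N := by
    have : 1 ≤ K ^ 2 := one_le_pow₀ hK
    nlinarith
  have key := h N (Q⁻¹ ^ 2) S n1 (by positivity) (fun x hx => by
    have hX := hS x hx
    refine ⟨fun j => int_le_of ((Xat_le h1 h2 hX j).trans n2), hX.1.ff, ?_⟩
    obtain ⟨_, T', b, G, l, k, hD, hTT, _, hΦ⟩ := hX
    have a1 : T' ^ 4 ≤ (N : ℝ) ^ 4 := pow_le_pow_left₀ hD.T0.le (hTT.trans hNT) 4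
    have a2 : Q ^ 2 * |(((PP5L.SS x).det : ℤ) : ℝ)| ≤ (N : ℝ) ^ 4 := hΦ.trans a1
    rw [inv_pow, inv_mul_eq_div, le_div_iff₀ (by positivity)]
    linarith)
  refine key.trans ?_
  have e1 : √(Q⁻¹ ^ 2) = Q⁻¹ := Real.sqrt_sq (by positivity)
  rw [e1]
  have b1 : (N : ℝ) ^ ε ≤ 2 ^ ε * (T ^ ε * K ^ (2 * ε)) := by
    have : (N : ℝ) ^ ε ≤ (2 * (T * K ^ 2)) ^ ε := Real.rpow_le_rpow hN0.le n3 hε.le
    refine this.trans (le_of_eq ?_)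
    rw [Real.mul_rpow (by norm_num) (by positivity), Real.mul_rpow hT0.le (by positivity),
      ← Real.rpow_natCast K 2, ← Real.rpow_mul hK0.le]
    norm_num
  have b2 : (N : ℝ) ^ 8 ≤ 2 ^ 8 * (T ^ 8 * K ^ 16) := by
    have : (N : ℝ) ^ 8 ≤ (2 * (T * K ^ 2)) ^ 8 := pow_le_pow_left₀ hN0.le n3 8
    refine this.trans (le_of_eq ?_)
    ring
  have b3 : (N : ℝ) ^ (15 / 2 : ℝ) ≤ 2 ^ 8 * (T ^ 8 * T ^ (-(1 / 2) : ℝ) * K ^ 16) := by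
    have : (N : ℝ) ^ (15 / 2 : ℝ) ≤ (2 * (T * K ^ 2)) ^ (15 / 2 : ℝ) :=
      Real.rpow_le_rpow hN0.le n3 (by norm_num)
    refine this.trans ?_
    rw [Real.mul_rpow (by norm_num) (by positivity), Real.mul_rpow hT0.le (by positivity)]
    have c1 : (2 : ℝ) ^ (15 / 2 : ℝ) ≤ 2 ^ 8 := by
      rw [← Real.rpow_natCast]
      exact Real.rpow_le_rpow_of_exponent_le (by norm_num) (by norm_num)
    have c2 : T ^ (15 / 2 : ℝ) = T ^ 8 * T ^ (-(1 / 2) : ℝ) := by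
      rw [← Real.rpow_natCast T 8, ← Real.rpow_add hT0]
      norm_num
    have c3 : (K ^ 2) ^ (15 / 2 : ℝ) ≤ K ^ 16 := by
      rw [← Real.rpow_natCast K 2, ← Real.rpow_mul hK0.le, ← Real.rpow_natCast K 16]
      exact Real.rpow_le_rpow_of_exponent_le hK (by norm_num)
    rw [c2]
    have c4 : 0 ≤ T ^ 8 * T ^ (-(1 / 2) : ℝ) := by positivity
    exact mul_le_mul c1 (mul_le_mul_of_nonneg_left c3 c4) (by positivity) (by norm_num)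
  have b4 : (N : ℝ) ^ (15 / 2 : ℝ) + Q⁻¹ * (N : ℝ) ^ 8 ≤
      2 ^ 8 * (T ^ 8 * K ^ 16) * (Q⁻¹ + T ^ (-(1 / 2) : ℝ)) := by
    have hQi : 0 ≤ Q⁻¹ := by positivity
    have := mul_le_mul_of_nonneg_left b2 hQi
    calc (N : ℝ) ^ (15 / 2 : ℝ) + Q⁻¹ * (N : ℝ) ^ 8 ≤
        2 ^ 8 * (T ^ 8 * T ^ (-(1 / 2) : ℝ) * K ^ 16) + Q⁻¹ * (2 ^ 8 * (T ^ 8 * K ^ 16)) := add_le_add b3 this
      _ = _ := by ring
  have b5 : T ^ (8 + ε) = T ^ 8 * T ^ ε := by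
    rw [Real.rpow_add hT0]
    have : T ^ (8 : ℝ) = T ^ 8 := by rw [← Real.rpow_natCast]; norm_num
    rw [this]
  have b6 : K ^ (16 + 2 * ε) = K ^ 16 * K ^ (2 * ε) := by
    rw [Real.rpow_add hK0]
    have : K ^ (16 : ℝ) = K ^ 16 := by rw [← Real.rpow_natCast]; norm_num
    rw [this]
  rw [b5, b6]
  have b7 : 0 ≤ K ^ 16 * K ^ (2 * ε) * (T ^ 8 * T ^ ε) * (Q⁻¹ + T ^ (-(1 / 2) : ℝ)) := by positivity
  calc C * (N : ℝ) ^ ε * ((N : ℝ) ^ (15 / 2 : ℝ) + Q⁻¹ * (N : ℝ) ^ 8)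
      ≤ C * (2 ^ ε * (T ^ ε * K ^ (2 * ε))) * (2 ^ 8 * (T ^ 8 * K ^ 16) * (Q⁻¹ + T ^ (-(1 / 2) : ℝ))) :=
        mul_le_mul (mul_le_mul_of_nonneg_left b1 hC.le) b4 (by positivity) (by positivity)
    _ = C * 2 ^ ε * 2 ^ 8 * (K ^ 16 * K ^ (2 * ε) * (T ^ 8 * T ^ ε) * (Q⁻¹ + T ^ (-(1 / 2) : ℝ))) := by ring
    _ ≤ (C * 2 ^ ε * 2 ^ 8 + 1) * (K ^ 16 * K ^ (2 * ε) * (T ^ 8 * T ^ ε) * (Q⁻¹ + T ^ (-(1 / 2) : ℝ))) :=
        mul_le_mul_of_nonneg_right (by linarith) b7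
    _ = _ := by ring

theorem cs (Cx : ℝ) : CS Cx := by
  classical
  intro ε hε
  have hε0 : 0 < min ε 1 := lt_min hε one_pos
  obtain ⟨C, hC, h⟩ := PP5X.fz_count hε0
  refine ⟨17, C * 2 ^ 9 * 3 + 1, by norm_num, by
    have : 0 ≤ C * 2 ^ 9 * 3 := by positivity
    linarith, ?_⟩
  intro t1 t2 T Q h1 h2 hT hQ S hS
  have hT0 : 0 < T := by linarith
  have hQ0 : 0 < Q := by linarith
  have hK : 1 ≤ t1 * t2 := by nlinarith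
  set K := t1 * t2 with hKdef
  have hK0 : 0 < K := by linarith
  obtain ⟨n1, n2, n3⟩ := N_box hT hK
  set N : ℕ := ⌈T * K ^ 2⌉₊ with hN
  have hN0 : (0 : ℝ) < N := by exact_mod_cast n1
  set e := min ε 1 with he
  have he1 : e ≤ 1 := min_le_right _ _
  have hee : e ≤ ε := min_le_left _ _
  set Fs : Finset ℤ := (Finset.Icc (-⌊Q⌋) ⌊Q⌋).erase 0 with hFs
  have hsub : S ⊆ Fs.biUnion fun f => S.filter fun x => IsSquare (f * (PP5L.SS x).det) := by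
    intro x hx
    obtain ⟨_, T', b, G, l, k, hD, hTT, _, f, hf0, hfQ, hsq⟩ := hS x hx
    refine Finset.mem_biUnion.2 ⟨f, ?_, Finset.mem_filter.2 ⟨hx, hsq⟩⟩
    rw [hFs, Finset.mem_erase]
    exact ⟨hf0, mem_Icc_of_abs hfQ⟩
  have hone : ∀ f ∈ Fs, ((S.filter fun x => IsSquare (f * (PP5L.SS x).det)).card : ℝ) ≤
      C * Q ^ (1 + e) * (N : ℝ) ^ (15 / 2 + e) := by
    intro f hf
    rw [hFs, Finset.mem_erase, Finset.mem_Icc] at hf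
    obtain ⟨hf0, hf1, hf2⟩ := hf
    have hfQ : |(f : ℝ)| ≤ Q := by
      have h6 : (f : ℝ) ≤ ⌊Q⌋ := by exact_mod_cast hf2
      have h7 : (-(⌊Q⌋ : ℝ)) ≤ f := by exact_mod_cast hf1
      have h8 := Int.floor_le Q
      rw [abs_le]; constructor <;> linarith
    have g := h f N (S.filter fun x => IsSquare (f * (PP5L.SS x).det)) n1 hf0 (fun x hx => by
      obtain ⟨hx1, hx2⟩ := Finset.mem_filter.1 hx
      have hX := hS x hx1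
      exact ⟨fun j => int_le_of ((Xat_le h1 h2 hX j).trans n2), hX.1.ff, hx2⟩)
    refine g.trans ?_
    have : |(f : ℝ)| ^ (1 + e) ≤ Q ^ (1 + e) := Real.rpow_le_rpow (abs_nonneg _) hfQ (by linarith)
    exact mul_le_mul_of_nonneg_right (mul_le_mul_of_nonneg_left this hC.le) (by positivity)
  have hFc : (Fs.card : ℝ) ≤ 3 * Q := by
    have a1 : (Fs.card : ℝ) ≤ ((Finset.Icc (-⌊Q⌋) ⌊Q⌋).card : ℝ) := by
      exact_mod_cast Finset.card_le_card (Finset.erase_subset _ _)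
    have a2 := Icc_card hQ0.le
    linarith
  have hcard : (S.card : ℝ) ≤ 3 * Q * (C * Q ^ (1 + e) * (N : ℝ) ^ (15 / 2 + e)) := by
    have a1 := (Finset.card_le_card hsub).trans Finset.card_biUnion_le
    have a2 : (S.card : ℝ) ≤ ∑ f ∈ Fs, ((S.filter fun x => IsSquare (f * (PP5L.SS x).det)).card : ℝ) := by
      exact_mod_cast a1
    refine a2.trans ((Finset.sum_le_sum hone).trans ?_)
    rw [Finset.sum_const, nsmul_eq_mul]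
    exact mul_le_mul_of_nonneg_right hFc (by positivity)
  refine hcard.trans ?_
  have b1 : Q * Q ^ (1 + e) ≤ Q ^ 3 := by
    have c1 : Q * Q ^ (1 + e) = Q ^ (2 + e) := by
      nth_rw 1 [← Real.rpow_one Q]
      rw [← Real.rpow_add hQ0]
      congr 1
      ring
    rw [c1, ← Real.rpow_natCast Q 3]
    exact Real.rpow_le_rpow_of_exponent_le hQ (by push_cast; linarith)
  have b2 : (N : ℝ) ^ (15 / 2 + e) ≤ 2 ^ 9 * (T ^ (8 + ε) * T ^ (-(1 / 2) : ℝ) * K ^ 17) := by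
    have c0 : (N : ℝ) ^ (15 / 2 + e) ≤ (2 * (T * K ^ 2)) ^ (15 / 2 + e) :=
      Real.rpow_le_rpow hN0.le n3 (by linarith)
    refine c0.trans ?_
    rw [Real.mul_rpow (by norm_num) (by positivity), Real.mul_rpow hT0.le (by positivity)]
    have c1 : (2 : ℝ) ^ (15 / 2 + e) ≤ 2 ^ 9 := by
      rw [← Real.rpow_natCast]
      exact Real.rpow_le_rpow_of_exponent_le (by norm_num) (by push_cast; linarith)
    have c2 : T ^ (15 / 2 + e) ≤ T ^ (8 + ε) * T ^ (-(1 / 2) : ℝ) := by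
      rw [← Real.rpow_add hT0]
      exact Real.rpow_le_rpow_of_exponent_le hT (by linarith)
    have c3 : (K ^ 2) ^ (15 / 2 + e) ≤ K ^ 17 := by
      rw [← Real.rpow_natCast K 2, ← Real.rpow_mul hK0.le, ← Real.rpow_natCast K 17]
      exact Real.rpow_le_rpow_of_exponent_le hK (by push_cast; linarith)
    exact mul_le_mul c1 (mul_le_mul c2 c3 (by positivity) (by positivity)) (by positivity) (by norm_num)
  have b3 : K ^ (17 : ℝ) = K ^ 17 := by rw [← Real.rpow_natCast]; norm_num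
  rw [b3]
  have b7 : 0 ≤ K ^ 17 * T ^ (8 + ε) * (Q ^ 3 * T ^ (-(1 / 2) : ℝ)) := by positivity
  calc 3 * Q * (C * Q ^ (1 + e) * (N : ℝ) ^ (15 / 2 + e))
      = 3 * C * (Q * Q ^ (1 + e)) * (N : ℝ) ^ (15 / 2 + e) := by ring
    _ ≤ 3 * C * Q ^ 3 * (2 ^ 9 * (T ^ (8 + ε) * T ^ (-(1 / 2) : ℝ) * K ^ 17)) :=
        mul_le_mul (mul_le_mul_of_nonneg_left b1 (by positivity)) b2 (by positivity) (by positivity)
    _ = C * 2 ^ 9 * 3 * (K ^ 17 * T ^ (8 + ε) * (Q ^ 3 * T ^ (-(1 / 2) : ℝ))) := by ring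
    _ ≤ (C * 2 ^ 9 * 3 + 1) * (K ^ 17 * T ^ (8 + ε) * (Q ^ 3 * T ^ (-(1 / 2) : ℝ))) :=
        mul_le_mul_of_nonneg_right (by linarith) b7
    _ = _ := by ring

end Pool.Agent.PP5V
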