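import Pool.Agent.PP5D.Tnp
import Pool.Agent.PP5S.Dat
import Pool.Agent.PP5S.Shl

/-!
# PP5 (D'): the number of `x` with a small first or third minimum
-/

set_option autoImplicit false

namespace Pool.Agent.PP5V

open Matrix Pool.Agent.PP5S Pool.Agent.PP5B

theorem det_zero_block {G : Matrix (Fin 4) (Fin 4) ℤ} (h : ∀ i j : Fin 4, i ≠ 3 → j ≠ 3 → G i j = 0) :
    G.det = 0 := by
  have h00 := h 0 0 (by decide) (by decide)
  have h01 := h 0 1 (by decide) (by decide)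
  have h02 := h 0 2 (by decide) (by decide)
  have h10 := h 1 0 (by decide) (by decide)
  have h11 := h 1 1 (by decide) (by decide)
  have h12 := h 1 2 (by decide) (by decide)
  have h20 := h 2 0 (by decide) (by decide)
  have h21 := h 2 1 (by decide) (by decide)
  have h22 := h 2 2 (by decide) (by decide)
  rw [Matrix.det_succ_row_zero]
  simp [Fin.sum_univ_succ, Matrix.det_fin_three, Fin.succAbove, h00, h01, h02, h10, h11, h12, h20, h21, h22]

/-- a small vector of the span of the first three basis vectors which is not isotropic -/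
theorem npv {G : Matrix (Fin 4) (Fin 4) ℤ} (hs : ∀ i j, G i j = G j i) (hd : G.det ≠ 0) :
    ∃ v : Fin 4 → ℤ, v 3 = 0 ∧ (∀ i, 0 ≤ v i ∧ v i ≤ 1) ∧ v 0 + v 1 + v 2 ≤ 2 ∧ v ⬝ᵥ (G *ᵥ v) ≠ 0 := by
  by_contra hcon
  push Not at hcon
  have hq : ∀ v : Fin 4 → ℤ, v ⬝ᵥ (G *ᵥ v) = ∑ i, ∑ j, v i * G i j * v j := by
    intro v
    simp only [dotProduct, mulVec, Finset.mul_sum]
    exact Finset.sum_congr rfl fun i _ => Finset.sum_congr rfl fun j _ => by ring
  have e0 := hcon ![1, 0, 0, 0] rfl (by intro i; fin_cases i <;> simp) (by simp)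
  have e1 := hcon ![0, 1, 0, 0] rfl (by intro i; fin_cases i <;> simp) (by simp)
  have e2 := hcon ![0, 0, 1, 0] rfl (by intro i; fin_cases i <;> simp) (by simp)
  have e01 := hcon ![1, 1, 0, 0] rfl (by intro i; fin_cases i <;> simp) (by simp)
  have e02 := hcon ![1, 0, 1, 0] rfl (by intro i; fin_cases i <;> simp) (by simp)
  have e12 := hcon ![0, 1, 1, 0] rfl (by intro i; fin_cases i <;> simp) (by simp)
  rw [hq] at e0 e1 e2 e01 e02 e12
  simp [Fin.sum_univ_four] at e0 e1 e2 e01 e02 e12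
  have s01 := hs 0 1
  have s02 := hs 0 2
  have s12 := hs 1 2
  apply hd
  apply det_zero_block
  intro i j hi hj
  fin_cases i <;> fin_cases j <;> simp only [Fin.isValue, Fin.zero_eta, Fin.mk_one, Fin.reduceFinMk, ne_eq,
    not_true_eq_false] at hi hj ⊢ <;> omega

/-- every non-zero point is a multiple of a primitive one -/
theorem prim_mul {P : Fin 12 → ℤ} {x : Fin 10 → ℤ} (h : PP5.InE P x) (hP : P ≠ 0) :
    ∃ (d : ℤ) (Q : Fin 12 → ℤ), d ≠ 0 ∧ PP5D.Prm Q ∧ (∀ i, |Q i| ≤ |P i|) ∧ PP5D.E16 Q x ∧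
      ∀ i, P i = d * Q i := by
  classical
  set d : ℤ := Finset.univ.gcd P with hd
  have hd0 : d ≠ 0 := by
    intro h0
    apply hP
    funext i
    exact Finset.gcd_eq_zero_iff.mp h0 i (Finset.mem_univ i)
  have hdv : ∀ i, d ∣ P i := fun i => Finset.gcd_dvd (Finset.mem_univ i)
  choose Q hQ using hdv
  have hgQ : ∀ i, P i = d * Q i := hQ
  refine ⟨d, Q, hd0, ?_, ?_, ?_, hgQ⟩
  · intro p hp hall
    have h1 : d * p ∣ d := by
      have : d * p ∣ Finset.univ.gcd P := by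
        apply Finset.dvd_gcd
        intro i _
        rw [hgQ i]
        exact mul_dvd_mul_left d (hall i)
      exact this
    have h2 : (p : ℤ) ∣ 1 := by
      have : d * p ∣ d * 1 := by rwa [mul_one]
      exact (mul_dvd_mul_iff_left hd0).mp this
    have h3 : (p : ℕ) ∣ 1 := by exact_mod_cast h2
    exact hp.one_lt.ne' (Nat.dvd_one.mp h3)
  · intro i
    rw [hgQ i, abs_mul]
    have : (1 : ℤ) ≤ |d| := Int.one_le_abs hd0
    nlinarith [abs_nonneg (Q i)]
  · have c (a : ℤ) (hab : d * a = 0) : a = 0 := by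
      rcases mul_eq_zero.mp hab with h' | h'
      · exact absurd h' hd0
      · exact h'
    constructor
    · apply c; have := h.e1; simp only [hgQ] at this; linear_combination this
    · apply c; have := h.e2; simp only [hgQ] at this; linear_combination this
    · apply c; have := h.e3; simp only [hgQ] at this; linear_combination this
    · apply c; have := h.e4; simp only [hgQ] at this; linear_combination this
    · apply c; have := h.e5; simp only [hgQ] at this; linear_combination this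
    · apply c; have := h.e6; simp only [hgQ] at this; linear_combination this
    · apply c; have := h.e7; simp only [hgQ] at this; linear_combination this
    · apply c; have := h.e8; simp only [hgQ] at this; linear_combination this
    · apply c; have := h.e9; simp only [hgQ] at this; linear_combination this
    · apply c; have := h.e10; simp only [hgQ] at this; linear_combination this
    · apply c; have := h.e11; simp only [hgQ] at this; linear_combination this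
    · apply c; have := h.e12; simp only [hgQ] at this; linear_combination this
    · apply c; have := h.e13; simp only [hgQ] at this; linear_combination this
    · apply c; have := h.e14; simp only [hgQ] at this; linear_combination this
    · apply c; have := h.e15; simp only [hgQ] at this; linear_combination this
    · apply c; have := h.e16; simp only [hgQ] at this; linear_combination this

theorem Qd_of_qq {P Q : Fin 12 → ℤ} {d : ℤ} (hPQ : ∀ i, P i = d * Q i) (h : ∀ j, PP5D.qq Q j = 0) :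
    PP5.Qd P := by
  have h0 := h 0
  have h1 := h 1
  have h2 := h 2
  have h3 := h 3
  have h4 := h 4
  have h5 := h 5
  have h6 := h 6
  have h7 := h 7
  have h8 := h 8
  have h9 := h 9
  simp only [PP5D.qq, Matrix.cons_val_zero, Matrix.cons_val_one, Matrix.cons_val] at h0 h1 h2 h3 h4 h5 h6 h7 h8 h9
  constructor
  · simp only [hPQ]; linear_combination d ^ 2 * h0
  · simp only [hPQ]; linear_combination d ^ 2 * h1
  · simp only [hPQ]; linear_combination d ^ 2 * h2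
  · simp only [hPQ]; linear_combination d ^ 2 * h3
  · simp only [hPQ]; linear_combination d ^ 2 * h4
  · simp only [hPQ]; linear_combination d ^ 2 * h5
  · simp only [hPQ]; linear_combination d ^ 2 * h6
  · simp only [hPQ]; linear_combination d ^ 2 * h7
  · simp only [hPQ]; linear_combination d ^ 2 * h8
  · simp only [hPQ]; linear_combination d ^ 2 * h9

theorem sg_le {t1 t2 : ℝ} (h1 : 1 ≤ t1) (h2 : 1 ≤ t2) (a : Fin 12) :
    0 < PP5.sg t1 t2 a ∧ PP5.sg t1 t2 a ≤ (t1 * t2) ^ 2 := by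
  have h10 : 0 < t1 := by linarith
  have h20 : 0 < t2 := by linarith
  have a1 : (1 : ℝ) ≤ t1 ^ 2 := one_le_pow₀ h1
  have a2 : (1 : ℝ) ≤ t2 ^ 2 := one_le_pow₀ h2
  have e : (t1 * t2) ^ 2 = t1 ^ 2 * t2 ^ 2 := by ring
  have b1 : 1 ≤ t1 ^ 2 * t2 ^ 2 := by nlinarith
  have c1 : t1 ≤ t1 ^ 2 := by nlinarith
  have c2 : t2 ≤ t2 ^ 2 := by nlinarith
  have d1 : t1 ^ 2 ≤ t1 ^ 2 * t2 ^ 2 := by nlinarith
  have d2 : t2 ^ 2 ≤ t1 ^ 2 * t2 ^ 2 := by nlinarith
  have inv1 : ∀ s r : ℝ, 1 ≤ s → 0 ≤ r → r / s ≤ r := fun s r hs hr => div_le_self hr hs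
  rw [e]
  fin_cases a <;> simp only [PP5.sg, Fin.isValue, Fin.zero_eta, Fin.mk_one, Fin.reduceFinMk,
    Matrix.cons_val_zero, Matrix.cons_val_one, Matrix.cons_val]
  · refine ⟨by positivity, ?_⟩
    exact (inv1 (t1 ^ 2 * t2) 1 (by nlinarith) zero_le_one).trans b1
  · exact ⟨by positivity, (inv1 t2 1 h2 zero_le_one).trans b1⟩
  · exact ⟨by positivity, (inv1 t2 (t1 ^ 2) h2 (by positivity)).trans d1⟩
  · exact ⟨by positivity, (inv1 (t1 ^ 2) t2 a1 h20.le).trans (c2.trans d2)⟩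
  · exact ⟨by positivity, c2.trans d2⟩
  · exact ⟨by positivity, mul_le_mul_of_nonneg_left c2 (by positivity)⟩
  · refine ⟨by positivity, ?_⟩
    exact (inv1 (t1 * t2 ^ 2) 1 (by nlinarith) zero_le_one).trans b1
  · exact ⟨by positivity, (inv1 t1 1 h1 zero_le_one).trans b1⟩
  · exact ⟨by positivity, (inv1 t1 (t2 ^ 2) h1 (by positivity)).trans d2⟩
  · exact ⟨by positivity, (inv1 (t2 ^ 2) t1 a2 h10.le).trans (c1.trans d1)⟩
  · exact ⟨by positivity, c1.trans d1⟩
  · exact ⟨by positivity, mul_le_mul_of_nonneg_right c1 (by positivity)⟩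

theorem int_ge_one {z : ℤ} {B : ℝ} (h : |(z : ℝ)| ≤ B) (hz : z ≠ 0) : 1 ≤ B := by
  have h1 : (1 : ℤ) ≤ |z| := Int.one_le_abs hz
  have h2 : (1 : ℝ) ≤ |(z : ℝ)| := by
    have : ((1 : ℤ) : ℝ) ≤ ((|z| : ℤ) : ℝ) := by exact_mod_cast h1
    rwa [Int.cast_abs, Int.cast_one] at this
  exact h2.trans h

/-- third minimum: the number of `x` with `l 2 ≤ M` -/
theorem l2_count {Cx ε : ℝ} (hε : 0 < ε) (hε1 : ε ≤ 1) : ∃ C : ℝ, 1 ≤ C ∧
    ∀ t1 t2 T M : ℝ, 1 ≤ t1 → 1 ≤ t2 → 0 < T → 0 < M →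
    ∀ (Tf : (Fin 10 → ℤ) → ℝ) (bf : (Fin 10 → ℤ) → Fin 4 → PP5.Sp)
      (Gf : (Fin 10 → ℤ) → Matrix (Fin 4) (Fin 4) ℤ) (lf : (Fin 10 → ℤ) → Fin 4 → ℝ)
      (kf : (Fin 10 → ℤ) → ℕ) (E : Finset (Fin 10 → ℤ)),
    (∀ x ∈ E, Xok x ∧ XD Cx t1 t2 (Tf x) x (bf x) (Gf x) (lf x) (kf x) ∧ Tf x ≤ T ∧ lf x 2 ≤ M) →
    (E.card : ℝ) ≤ C * (t1 * t2) ^ 18 * T ^ (4 + ε) * M ^ 4 := by
  obtain ⟨C, hC, ht⟩ := PP5D.tnp ε hε
  refine ⟨16 * C + 1, by linarith, ?_⟩
  intro t1 t2 T M h1 h2 hT hM Tf bf Gf lf kf E hE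
  have hK1 : 1 ≤ t1 * t2 := by nlinarith
  set K : ℝ := t1 * t2 with hK
  have hK0 : 0 < K := by linarith
  rcases E.eq_empty_or_nonempty with h0 | ⟨x0, hx0⟩
  · rw [h0]
    simp only [Finset.card_empty, Nat.cast_zero]
    positivity
  -- the point of each `x`
  have hpt : ∀ x ∈ E, PP5D.F10 x = 0 ∧ x ≠ 0 ∧ (∀ j, |(x j : ℝ)| ≤ T * K ^ 2) ∧
      ∃ P : PP5D.P12, PP5D.Prm P ∧ (∀ i, |(P i : ℝ)| ≤ 2 * M * K ^ 2) ∧
        ∃ q : ℤ, q ≠ 0 ∧ ∀ j, PP5D.qq P j = q * x j := by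
    intro x hx
    obtain ⟨hok, hD, hTf, hl⟩ := hE x hx
    have hprm : PP5D.Prm x := by
      intro p hp hall
      obtain ⟨j, hj⟩ := hok.pr p hp
      exact hj (hall j)
    have hdG : (Gf x).det ≠ 0 := by
      intro h3
      apply hok.dn
      rw [hD.kd, h3, mul_zero]
    obtain ⟨v, v3, v01, v2, vq⟩ := npv hD.xg.sym hdG
    set P : Fin 12 → ℤ := fun a => ∑ i, v i * bf x i a with hP
    have hInE : PP5.InE P x := by
      have g := hD.bE
      have e0 := g 0
      have e1 := g 1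
      have e2 := g 2
      have e3 := g 3
      constructor
      · simp only [hP, Fin.sum_univ_four]
        linear_combination v 0 * e0.e1 + v 1 * e1.e1 + v 2 * e2.e1 + v 3 * e3.e1
      · simp only [hP, Fin.sum_univ_four]
        linear_combination v 0 * e0.e2 + v 1 * e1.e2 + v 2 * e2.e2 + v 3 * e3.e2
      · simp only [hP, Fin.sum_univ_four]
        linear_combination v 0 * e0.e3 + v 1 * e1.e3 + v 2 * e2.e3 + v 3 * e3.e3
      · simp only [hP, Fin.sum_univ_four]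
        linear_combination v 0 * e0.e4 + v 1 * e1.e4 + v 2 * e2.e4 + v 3 * e3.e4
      · simp only [hP, Fin.sum_univ_four]
        linear_combination v 0 * e0.e5 + v 1 * e1.e5 + v 2 * e2.e5 + v 3 * e3.e5
      · simp only [hP, Fin.sum_univ_four]
        linear_combination v 0 * e0.e6 + v 1 * e1.e6 + v 2 * e2.e6 + v 3 * e3.e6
      · simp only [hP, Fin.sum_univ_four]
        linear_combination v 0 * e0.e7 + v 1 * e1.e7 + v 2 * e2.e7 + v 3 * e3.e7
      · simp only [hP, Fin.sum_univ_four]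
        linear_combination v 0 * e0.e8 + v 1 * e1.e8 + v 2 * e2.e8 + v 3 * e3.e8
      · simp only [hP, Fin.sum_univ_four]
        linear_combination v 0 * e0.e9 + v 1 * e1.e9 + v 2 * e2.e9 + v 3 * e3.e9
      · simp only [hP, Fin.sum_univ_four]
        linear_combination v 0 * e0.e10 + v 1 * e1.e10 + v 2 * e2.e10 + v 3 * e3.e10
      · simp only [hP, Fin.sum_univ_four]
        linear_combination v 0 * e0.e11 + v 1 * e1.e11 + v 2 * e2.e11 + v 3 * e3.e11
      · simp only [hP, Fin.sum_univ_four]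
        linear_combination v 0 * e0.e12 + v 1 * e1.e12 + v 2 * e2.e12 + v 3 * e3.e12
      · simp only [hP, Fin.sum_univ_four]
        linear_combination v 0 * e0.e13 + v 1 * e1.e13 + v 2 * e2.e13 + v 3 * e3.e13
      · simp only [hP, Fin.sum_univ_four]
        linear_combination v 0 * e0.e14 + v 1 * e1.e14 + v 2 * e2.e14 + v 3 * e3.e14
      · simp only [hP, Fin.sum_univ_four]
        linear_combination v 0 * e0.e15 + v 1 * e1.e15 + v 2 * e2.e15 + v 3 * e3.e15
      · simp only [hP, Fin.sum_univ_four]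
        linear_combination v 0 * e0.e16 + v 1 * e1.e16 + v 2 * e2.e16 + v 3 * e3.e16
    have hP0 : P ≠ 0 := by
      intro h3
      have h4 := hD.ind v (fun a => congrFun h3 a)
      apply vq
      rw [h4]
      simp
    obtain ⟨d, Q, hd0, hQp, hQl, hQE, hPQ⟩ := prim_mul hInE hP0
    obtain ⟨q, hq⟩ := PP5D.q_ex hQE hprm
    refine ⟨?_, ?_, ?_, Q, hQp, ?_, q, ?_, hq⟩
    · have := hok.ff
      unfold PP5D.F10
      unfold PP5L.FF at this
      linear_combination this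
    · rintro rfl
      exact hprm 2 Nat.prime_two fun j => by simp
    · intro j
      refine (hD.Tle j).trans ?_
      have := (tx_le h1 h2 j).2
      have h5 : 0 ≤ PP5.tx t1 t2 j := (PP5.tx_pos (by linarith) (by linarith) j).le
      calc Tf x * PP5.tx t1 t2 j ≤ T * PP5.tx t1 t2 j := mul_le_mul_of_nonneg_right hTf h5
        _ ≤ T * K ^ 2 := mul_le_mul_of_nonneg_left this hT.le
    · intro a
      have h3 : |(Q a : ℝ)| ≤ |(P a : ℝ)| := by
        have := hQl a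
        have h' : ((|Q a| : ℤ) : ℝ) ≤ ((|P a| : ℤ) : ℝ) := by exact_mod_cast this
        rwa [Int.cast_abs, Int.cast_abs] at h'
      refine h3.trans ?_
      have hs := sg_le h1 h2 a
      have m := hD.mono
      have hb : ∀ i : Fin 4, i ≠ 3 → |(v i : ℝ) * (bf x i a : ℝ)| ≤ (v i : ℝ) * (M * PP5.sg t1 t2 a) := by
        intro i hi
        have h6 : (0 : ℝ) ≤ (v i : ℝ) := by exact_mod_cast (v01 i).1
        rw [abs_mul, abs_of_nonneg h6]
        refine mul_le_mul_of_nonneg_left ?_ h6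
        refine (hD.bl i a).trans (mul_le_mul_of_nonneg_right ?_ hs.1.le)
        refine le_trans ?_ hl
        fin_cases i
        · exact m.1.trans m.2.1
        · exact m.2.1
        · exact le_refl _
        · exact absurd rfl hi
      have h7 : (P a : ℝ) = (v 0 : ℝ) * (bf x 0 a : ℝ) + (v 1 : ℝ) * (bf x 1 a : ℝ) +
          (v 2 : ℝ) * (bf x 2 a : ℝ) := by
        simp only [hP, Fin.sum_univ_four, v3]
        push_cast
        ring
      rw [h7]
      have k0 := hb 0 (by decide)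
      have k1 := hb 1 (by decide)
      have k2 := hb 2 (by decide)
      have h8 : ((v 0 : ℝ) + v 1 + v 2) ≤ 2 := by exact_mod_cast v2
      have h9 : 0 ≤ M * PP5.sg t1 t2 a := mul_nonneg hM.le hs.1.le
      calc |(v 0 : ℝ) * (bf x 0 a : ℝ) + (v 1 : ℝ) * (bf x 1 a : ℝ) + (v 2 : ℝ) * (bf x 2 a : ℝ)|
          ≤ |(v 0 : ℝ) * (bf x 0 a : ℝ)| + |(v 1 : ℝ) * (bf x 1 a : ℝ)| + |(v 2 : ℝ) * (bf x 2 a : ℝ)| :=
            abs_add_three _ _ _
        _ ≤ ((v 0 : ℝ) + v 1 + v 2) * (M * PP5.sg t1 t2 a) := by linarith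
        _ ≤ 2 * (M * PP5.sg t1 t2 a) := mul_le_mul_of_nonneg_right h8 h9
        _ ≤ 2 * (M * K ^ 2) := by
            have := mul_le_mul_of_nonneg_left hs.2 hM.le
            linarith
        _ = _ := by ring
    · rintro rfl
      apply vq
      apply hD.quad
      exact Qd_of_qq hPQ fun j => by rw [hq j, zero_mul]
  -- sizes are at least 1
  obtain ⟨hF, hx0', hxT, P, hPp, hPl, _⟩ := hpt x0 hx0
  have hT1 : 1 ≤ T * K ^ 2 := by
    by_contra hlt
    apply hx0'
    funext j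
    by_contra hj
    exact hlt (int_ge_one (hxT j) hj)
  have hM1 : 1 ≤ 2 * M * K ^ 2 := by
    by_contra hlt
    refine hPp 2 Nat.prime_two fun j => ?_
    by_cases hj : P j = 0
    · rw [hj]; exact dvd_zero _
    · exact absurd (int_ge_one (hPl j) hj) hlt
  have key := ht (2 * M * K ^ 2) (T * K ^ 2) hM1 hT1 E hpt
  refine key.trans ?_
  have e1 : (T * K ^ 2) ^ ε * ((T * K ^ 2) ^ 4 * (2 * M * K ^ 2) ^ 4) =
      16 * (K ^ 2) ^ ε * K ^ 16 * T ^ (4 + ε) * M ^ 4 := by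
    rw [Real.mul_rpow hT.le (by positivity), Real.rpow_add hT]
    have : T ^ (4 : ℝ) = T ^ 4 := by rw [← Real.rpow_natCast]; norm_num
    rw [this]
    ring
  have e2 : (K ^ 2) ^ ε ≤ K ^ 2 := by
    have : (K ^ 2) ^ ε ≤ (K ^ 2) ^ (1 : ℝ) :=
      Real.rpow_le_rpow_of_exponent_le (one_le_pow₀ hK1) hε1
    rwa [Real.rpow_one] at this
  have e3 : 0 ≤ K ^ 16 * T ^ (4 + ε) * M ^ 4 := by positivity
  calc C * (T * K ^ 2) ^ ε * ((T * K ^ 2) ^ 4 * (2 * M * K ^ 2) ^ 4)
      = C * (16 * (K ^ 2) ^ ε * K ^ 16 * T ^ (4 + ε) * M ^ 4) := by rw [mul_assoc, e1]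
    _ = 16 * C * (K ^ 2) ^ ε * (K ^ 16 * T ^ (4 + ε) * M ^ 4) := by ring
    _ ≤ 16 * C * K ^ 2 * (K ^ 16 * T ^ (4 + ε) * M ^ 4) := by
        apply mul_le_mul_of_nonneg_right _ e3
        exact mul_le_mul_of_nonneg_left e2 (by positivity)
    _ ≤ (16 * C + 1) * K ^ 2 * (K ^ 16 * T ^ (4 + ε) * M ^ 4) := by
        apply mul_le_mul_of_nonneg_right _ e3
        apply mul_le_mul_of_nonneg_right _ (by positivity)
        linarith
    _ = _ := by ring

/-- first minimum: the number of `x` with `l 0 ≤ M` -/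
theorem l0_count {Cx ε : ℝ} (hε : 0 < ε) (hε1 : ε ≤ 1) : ∃ C : ℝ, 1 ≤ C ∧
    ∀ t1 t2 T M : ℝ, 1 ≤ t1 → 1 ≤ t2 → 0 < T → 0 < M →
    ∀ (Tf : (Fin 10 → ℤ) → ℝ) (bf : (Fin 10 → ℤ) → Fin 4 → PP5.Sp)
      (Gf : (Fin 10 → ℤ) → Matrix (Fin 4) (Fin 4) ℤ) (lf : (Fin 10 → ℤ) → Fin 4 → ℝ)
      (kf : (Fin 10 → ℤ) → ℕ) (E : Finset (Fin 10 → ℤ)),
    (∀ x ∈ E, Xok x ∧ XD Cx t1 t2 (Tf x) x (bf x) (Gf x) (lf x) (kf x) ∧ Tf x ≤ T ∧ lf x 0 ≤ M) →
    (E.card : ℝ) ≤ C * (t1 * t2) ^ 18 * T ^ (4 + ε) * (M ^ 4 + T * M ^ 3) := by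
  obtain ⟨C, hC, ht⟩ := PP5D.thn ε hε
  refine ⟨C + 1, by linarith, ?_⟩
  intro t1 t2 T M h1 h2 hT hM Tf bf Gf lf kf E hE
  have hK1 : 1 ≤ t1 * t2 := by nlinarith
  set K : ℝ := t1 * t2 with hK
  have hK0 : 0 < K := by linarith
  rcases E.eq_empty_or_nonempty with h0 | ⟨x0, hx0⟩
  · rw [h0]
    simp only [Finset.card_empty, Nat.cast_zero]
    positivity
  have hpt : ∀ x ∈ E, PP5D.Prm x ∧ PP5D.F10 x = 0 ∧ (∀ j, |(x j : ℝ)| ≤ T * K ^ 2) ∧
      ∃ P : PP5D.P12, P ≠ 0 ∧ (∀ i, |(P i : ℝ)| ≤ M * K ^ 2) ∧ PP5D.E16 P x := by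
    intro x hx
    obtain ⟨hok, hD, hTf, hl⟩ := hE x hx
    have hprm : PP5D.Prm x := by
      intro p hp hall
      obtain ⟨j, hj⟩ := hok.pr p hp
      exact hj (hall j)
    refine ⟨hprm, ?_, ?_, bf x 0, ?_, ?_, ?_⟩
    · have := hok.ff
      unfold PP5D.F10
      unfold PP5L.FF at this
      linear_combination this
    · intro j
      refine (hD.Tle j).trans ?_
      have := (tx_le h1 h2 j).2
      have h5 : 0 ≤ PP5.tx t1 t2 j := (PP5.tx_pos (by linarith) (by linarith) j).le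
      calc Tf x * PP5.tx t1 t2 j ≤ T * PP5.tx t1 t2 j := mul_le_mul_of_nonneg_right hTf h5
        _ ≤ T * K ^ 2 := mul_le_mul_of_nonneg_left this hT.le
    · intro h3
      have h4 := hD.ind ![1, 0, 0, 0] (fun a => by simp [Fin.sum_univ_four, h3])
      have h5 := congrFun h4 0
      simp at h5
    · intro a
      have hs := sg_le h1 h2 a
      calc |(bf x 0 a : ℝ)| ≤ lf x 0 * PP5.sg t1 t2 a := hD.bl 0 a
        _ ≤ M * PP5.sg t1 t2 a := mul_le_mul_of_nonneg_right hl hs.1.le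
        _ ≤ M * K ^ 2 := mul_le_mul_of_nonneg_left hs.2 hM.le
    · have g := hD.bE 0
      exact ⟨g.e1, g.e2, g.e3, g.e4, g.e5, g.e6, g.e7, g.e8, g.e9, g.e10, g.e11, g.e12, g.e13, g.e14,
        g.e15, g.e16⟩
  obtain ⟨hxp, hF, hxT, P, hP0, hPl, _⟩ := hpt x0 hx0
  have hT1 : 1 ≤ T * K ^ 2 := by
    by_contra hlt
    refine hxp 2 Nat.prime_two fun j => ?_
    by_cases hj : x0 j = 0
    · rw [hj]; exact dvd_zero _
    · exact absurd (int_ge_one (hxT j) hj) hlt
  have hM1 : 1 ≤ M * K ^ 2 := by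
    by_contra hlt
    apply hP0
    funext j
    by_contra hj
    exact hlt (int_ge_one (hPl j) hj)
  have key := ht (M * K ^ 2) (T * K ^ 2) hM1 hT1 E hpt
  refine key.trans ?_
  have e1 : (T * K ^ 2) ^ ε * ((T * K ^ 2) ^ 4 * (M * K ^ 2) ^ 4 + (T * K ^ 2) ^ 5 * (M * K ^ 2) ^ 3) =
      (K ^ 2) ^ ε * (K ^ 16 * T ^ (4 + ε) * (M ^ 4 + T * M ^ 3)) := by
    rw [Real.mul_rpow hT.le (by positivity), Real.rpow_add hT]
    have : T ^ (4 : ℝ) = T ^ 4 := by rw [← Real.rpow_natCast]; norm_num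
    rw [this]
    ring
  have e2 : (K ^ 2) ^ ε ≤ K ^ 2 := by
    have : (K ^ 2) ^ ε ≤ (K ^ 2) ^ (1 : ℝ) :=
      Real.rpow_le_rpow_of_exponent_le (one_le_pow₀ hK1) hε1
    rwa [Real.rpow_one] at this
  have e3 : 0 ≤ K ^ 16 * T ^ (4 + ε) * (M ^ 4 + T * M ^ 3) := by positivity
  calc C * (T * K ^ 2) ^ ε * ((T * K ^ 2) ^ 4 * (M * K ^ 2) ^ 4 + (T * K ^ 2) ^ 5 * (M * K ^ 2) ^ 3)
      = C * ((K ^ 2) ^ ε * (K ^ 16 * T ^ (4 + ε) * (M ^ 4 + T * M ^ 3))) := by rw [mul_assoc, e1]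
    _ = C * (K ^ 2) ^ ε * (K ^ 16 * T ^ (4 + ε) * (M ^ 4 + T * M ^ 3)) := by ring
    _ ≤ C * K ^ 2 * (K ^ 16 * T ^ (4 + ε) * (M ^ 4 + T * M ^ 3)) := by
        apply mul_le_mul_of_nonneg_right _ e3
        exact mul_le_mul_of_nonneg_left e2 (by positivity)
    _ ≤ (C + 1) * K ^ 2 * (K ^ 16 * T ^ (4 + ε) * (M ^ 4 + T * M ^ 3)) := by
        apply mul_le_mul_of_nonneg_right _ e3
        apply mul_le_mul_of_nonneg_right _ (by positivity)
        linarith
    _ = _ := by ring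

end Pool.Agent.PP5V
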