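import Pool.Agent.PP5P.Se
import Pool.Agent.PP5P.Fm

/-!
# PP5 (D'), tail lemma: a small vector `c` with `gcd (n, c . M c)` small
-/

set_option autoImplicit false

namespace Pool.Agent.PP5V

open Matrix Pool.Agent.PP5P

/-- the value of the quadratic form at `c` -/
def qv (M : Matrix (Fin 4) (Fin 4) ℤ) (c : Fin 4 → ℤ) : ℤ := c ⬝ᵥ (M *ᵥ c)

theorem qv_row (M : Matrix (Fin 4) (Fin 4) ℤ) (hM : ∀ i j, M i j = M j i) (c : Fin 4 → ℤ) (j k : Fin 4) :
    qv M c * M j k - (M *ᵥ c) j * (M *ᵥ c) k = ∑ a, ∑ b, c a * c b * mr M a j b k := by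
  simp only [qv, dotProduct, mulVec, mr, Fin.sum_univ_four]
  rw [hM k 0, hM k 1, hM k 2, hM k 3]
  ring

theorem n_dvd_row {M : Matrix (Fin 4) (Fin 4) ℤ} (hM : ∀ i j, M i j = M j i) {n : ℤ}
    (hn : ∀ a b c d, n ∣ mr M a b c d) (c : Fin 4 → ℤ) (j k : Fin 4) :
    n ∣ qv M c * M j k - (M *ᵥ c) j * (M *ᵥ c) k := by
  rw [qv_row M hM]
  exact Finset.dvd_sum fun a _ => Finset.dvd_sum fun b _ => Dvd.dvd.mul_left (hn a j b k) _

/-- the vector with integer entries -/
def cz (c : Fin 4 → ℕ) : Fin 4 → ℤ := fun i => (c i : ℤ)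

/-- the exponents -/
def ee (K l : ℕ) : ℕ := if l < 4 * K then 8 * K else 1

def fe (K l : ℕ) : ℕ := if l < 4 * K then 4 * K else 1

theorem fe_dvd {K l : ℕ} (hl : l.Prime) {z : ℤ} (h : ((l ^ ee K l : ℕ) : ℤ) ∣ z ^ 2) :
    ((l ^ fe K l : ℕ) : ℤ) ∣ z := by
  unfold ee at h
  unfold fe
  split_ifs at h ⊢ with h0
  · have e : ((l ^ (8 * K) : ℕ) : ℤ) = ((l ^ (4 * K) : ℕ) : ℤ) ^ 2 := by
      push_cast
      rw [← pow_mul]
      congr 1
      ring
    rw [e] at h
    exact (Int.pow_dvd_pow_iff (by norm_num)).1 h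
  · rw [pow_one] at h ⊢
    exact (Nat.prime_iff_prime_int.1 hl).dvd_of_dvd_pow h

theorem fe_large {K l : ℕ} (hl : l.Prime) : 4 * K ≤ l ^ fe K l := by
  unfold fe
  split_ifs with h0
  · have h1 : 4 * K < 2 ^ (4 * K) := Nat.lt_two_pow_self
    have h2 : 2 ^ (4 * K) ≤ l ^ (4 * K) := Nat.pow_le_pow_left hl.two_le _
    omega
  · rw [pow_one]; omega

/-- the hypothesis on the content -/
def Cnt (n : ℕ) (M : Matrix (Fin 4) (Fin 4) ℤ) : Prop :=
  ∀ p w : ℕ, p.Prime → p ^ w ∣ n → ∃ i, Int.gcd (M i i) ((p ^ w : ℕ) : ℤ) ≤ 4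

open Classical in
/-- the bad set at `l` -/
noncomputable def Bs (K n : ℕ) (M : Matrix (Fin 4) (Fin 4) ℤ) (l : ℕ) : Finset (Fin 4 → ℕ) :=
  (Fintype.piFinset fun _ => Finset.range K).filter fun c =>
    l ^ ee K l ∣ n ∧ ((l ^ ee K l : ℕ) : ℤ) ∣ qv M (cz c)

theorem Bs_card {K n : ℕ} (hK : 0 < K) {M : Matrix (Fin 4) (Fin 4) ℤ} (hM : ∀ i j, M i j = M j i)
    (hn : ∀ a b c d, (n : ℤ) ∣ mr M a b c d) (hc : Cnt n M) {l : ℕ} (hl : l.Prime) :
    (Bs K n M l).card ≤ K ^ 3 := by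
  classical
  by_cases hln : l ^ ee K l ∣ n
  swap
  · have : Bs K n M l = ∅ := by
      unfold Bs
      rw [Finset.filter_eq_empty_iff]
      intro c _ h
      exact hln h.1
    rw [this]; simp
  obtain ⟨i, hi⟩ := hc l (ee K l) hl hln
  have hfe : fe K l ≤ ee K l := by unfold fe ee; split_ifs <;> omega
  -- the linear form
  have hlin : ∀ c ∈ Bs K n M l, ((l ^ fe K l : ℕ) : ℤ) ∣ (M *ᵥ cz c) i := by
    intro c hcB
    have h1 := (Finset.mem_filter.1 hcB).2.2
    have h2 := n_dvd_row hM hn (cz c) i i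
    have h3 : ((l ^ ee K l : ℕ) : ℤ) ∣ qv M (cz c) * M i i - (M *ᵥ cz c) i * (M *ᵥ cz c) i :=
      (Int.natCast_dvd_natCast.2 hln).trans h2
    have h4 : ((l ^ ee K l : ℕ) : ℤ) ∣ (M *ᵥ cz c) i ^ 2 := by
      have h5 := dvd_sub (Dvd.dvd.mul_right h1 (M i i)) h3
      rwa [sub_sub_cancel, ← sq] at h5
    exact fe_dvd hl h4
  have hinj : Set.InjOn (fun c : Fin 4 → ℕ => Function.update c i 0) (Bs K n M l : Set (Fin 4 → ℕ)) := by
    intro c hcB c' hcB' he
    have hcB1 : c ∈ Bs K n M l := hcB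
    have hcB1' : c' ∈ Bs K n M l := hcB'
    have hoth : ∀ j, j ≠ i → c j = c' j := by
      intro j hj
      have := congrFun he j
      simpa [Function.update_of_ne hj] using this
    have h1 := dvd_sub (hlin c hcB1) (hlin c' hcB1')
    have h2 : (M *ᵥ cz c) i - (M *ᵥ cz c') i = M i i * ((c i : ℤ) - c' i) := by
      rw [← Pi.sub_apply, ← mulVec_sub]
      simp only [mulVec, dotProduct]
      rw [Finset.sum_eq_single i]
      · simp [cz]
      · intro j _ hj
        simp [cz, hoth j hj]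
      · simp
    rw [h2] at h1
    have hci : c i < K := Finset.mem_range.1 ((Fintype.mem_piFinset.1 (Finset.mem_filter.1 hcB1).1) i)
    have hci' : c' i < K := Finset.mem_range.1 ((Fintype.mem_piFinset.1 (Finset.mem_filter.1 hcB1').1) i)
    have hci2 : c i = c' i := by
      by_contra hne
      set d : ℤ := (c i : ℤ) - c' i with hd
      have hd0 : d ≠ 0 := by rw [hd]; intro h; apply hne; omega
      have hdK : |d| < K := by rw [abs_lt]; constructor <;> omega
      -- gcd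
      have hg : Int.gcd (M i i) ((l ^ fe K l : ℕ) : ℤ) ≤ 4 := by
        refine le_trans (Nat.le_of_dvd ?_ ?_) hi
        · refine Nat.pos_of_ne_zero fun h => ?_
          rw [Int.gcd_eq_zero_iff] at h
          have := h.2
          have h3 : 0 < l ^ ee K l := pow_pos hl.pos _
          have : ((l ^ ee K l : ℕ) : ℤ) ≠ 0 := by exact_mod_cast h3.ne'
          contradiction
        · exact Int.gcd_dvd_gcd_of_dvd_right _ (Int.natCast_dvd_natCast.2 (pow_dvd_pow l hfe))
      have h5 : (l ^ fe K l) ∣ Int.gcd (M i i) ((l ^ fe K l : ℕ) : ℤ) * d.natAbs := by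
        have h6 : ((l ^ fe K l : ℕ) : ℤ) ∣ M i i * d := h1
        have h7 : (l ^ fe K l) ∣ (M i i).natAbs * d.natAbs := by
          rw [← Int.natAbs_mul]
          exact Int.natCast_dvd.1 h6
        have h8 : (l ^ fe K l) ∣ (l ^ fe K l) * d.natAbs := dvd_mul_right _ _
        have h9 := Nat.dvd_gcd h7 h8
        rw [Nat.gcd_mul_right] at h9
        rw [Int.gcd_eq_natAbs_gcd_natAbs]
        simpa using h9
      have hdn : 0 < d.natAbs := Int.natAbs_pos.2 hd0
      have hgp : 0 < Int.gcd (M i i) ((l ^ fe K l : ℕ) : ℤ) := by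
        refine Nat.pos_of_ne_zero fun h => ?_
        rw [Int.gcd_eq_zero_iff] at h
        have h3 : 0 < l ^ fe K l := pow_pos hl.pos _
        have : ((l ^ fe K l : ℕ) : ℤ) ≠ 0 := by exact_mod_cast h3.ne'
        exact this h.2
      have h10 := Nat.le_of_dvd (Nat.mul_pos hgp hdn) h5
      have h11 := fe_large (K := K) hl
      have h12 : d.natAbs < K := by
        have := hdK
        rw [Int.abs_eq_natAbs] at this
        exact_mod_cast this
      have h13 : Int.gcd (M i i) ((l ^ fe K l : ℕ) : ℤ) * d.natAbs ≤ 4 * d.natAbs :=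
        Nat.mul_le_mul_right _ hg
      omega
    funext j
    by_cases hj : j = i
    · subst hj; exact hci2
    · exact hoth j hj
  rw [← Finset.card_image_of_injOn hinj]
  have hsub : (Bs K n M l).image (fun c : Fin 4 → ℕ => Function.update c i 0) ⊆
      Fintype.piFinset fun j => if j = i then {0} else Finset.range K := by
    intro t ht
    obtain ⟨c, hc, rfl⟩ := Finset.mem_image.1 ht
    rw [Fintype.mem_piFinset]
    intro j
    by_cases hj : j = i
    · subst hj; simp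
    · simp only [Function.update_of_ne hj, hj, if_false]
      exact (Fintype.mem_piFinset.1 (Finset.mem_filter.1 hc).1) j
  refine (Finset.card_le_card hsub).trans ?_
  rw [Fintype.card_piFinset, ← Finset.mul_prod_erase _ _ (Finset.mem_univ i)]
  simp only [if_true, Finset.card_singleton, one_mul]
  rw [Finset.prod_congr rfl (fun j hj => by rw [if_neg (Finset.ne_of_mem_erase hj)])]
  rw [Finset.prod_const, Finset.card_range, Finset.card_erase_of_mem (Finset.mem_univ i)]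
  simp

/-- the constant -/
def Mc (K : ℕ) : ℕ := ((4 * K).factorial) ^ (8 * K)

theorem Mc_pos (K : ℕ) : 0 < Mc K := pow_pos (Nat.factorial_pos _) _

/-- AVERAGING: a small vector `c` with `gcd (n, c . M c)` small -/
theorem av {K n : ℕ} (hK : 0 < K) (hn0 : n ≠ 0) {M : Matrix (Fin 4) (Fin 4) ℤ}
    (hM : ∀ i j, M i j = M j i) (hn : ∀ a b c d, (n : ℤ) ∣ mr M a b c d) (hc : Cnt n M) :
    ∃ c : Fin 4 → ℕ, (∀ i, c i < K) ∧
      (Nat.gcd n (qv M (cz c)).natAbs : ℝ) ≤ Mc K * (n : ℝ) ^ (8 / (K : ℝ)) := by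
  classical
  have hKr : (0 : ℝ) < K := by exact_mod_cast hK
  set Ω : Finset (Fin 4 → ℕ) := Fintype.piFinset fun _ => Finset.range K with hΩ
  have hΩc : (Ω.card : ℝ) = (K : ℝ) ^ 4 := by
    rw [hΩ, Fintype.card_piFinset]
    simp
  have hsel := sel Ω hn0 (Bs K n M) (ρ := 1 / (K : ℝ)) (by positivity) (by
    intro l hl
    have h1 := Bs_card hK hM hn hc (Nat.prime_of_mem_primeFactors hl)
    have h2 : ((Bs K n M l).card : ℝ) ≤ (K : ℝ) ^ 3 := by exact_mod_cast h1
    rw [hΩc]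
    refine h2.trans (le_of_eq ?_)
    field_simp)
  have hex : ∃ c ∈ Ω, ¬ (n : ℝ) ^ (8 * (1 / (K : ℝ))) < (nbad n (Bs K n M) c : ℝ) := by
    by_contra hcon
    push Not at hcon
    have : Ω.filter (fun ω => (n : ℝ) ^ (8 * (1 / (K : ℝ))) < (nbad n (Bs K n M) ω : ℝ)) = Ω :=
      Finset.filter_true_of_mem hcon
    rw [this] at hsel
    have : (0 : ℝ) < Ω.card := by rw [hΩc]; positivity
    linarith
  obtain ⟨c, hcΩ, hcb⟩ := hex
  push Not at hcb
  refine ⟨c, fun i => Finset.mem_range.1 ((Fintype.mem_piFinset.1 hcΩ) i), ?_⟩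
  have hdvd : Nat.gcd n (qv M (cz c)).natAbs ∣ Mc K * nbad n (Bs K n M) c := by
    refine dvd_nbad hn0 (Bs K n M) c (Nat.gcd_dvd_left _ _) (Mc_pos K).ne' ?_
    intro l hl hcl
    have hlp := Nat.prime_of_mem_primeFactors hl
    set s := Nat.gcd n (qv M (cz c)).natAbs with hs
    have hs0 : s ≠ 0 := fun h => hn0 (Nat.eq_zero_of_gcd_eq_zero_left h)
    -- `l ^ ee` does not divide `s`
    have hnd : ¬ l ^ ee K l ∣ s := by
      intro h
      apply hcl
      unfold Bs
      rw [Finset.mem_filter]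
      exact ⟨hcΩ, h.trans (Nat.gcd_dvd_left _ _), Int.natCast_dvd.2 (h.trans (Nat.gcd_dvd_right _ _))⟩
    rw [hlp.pow_dvd_iff_le_factorization hs0] at hnd
    push Not at hnd
    unfold ee at hnd
    split_ifs at hnd with h0
    · refine hnd.le.trans ?_
      rw [← hlp.pow_dvd_iff_le_factorization (Mc_pos K).ne']
      unfold Mc
      exact pow_dvd_pow_of_dvd (Nat.dvd_factorial hlp.pos h0.le) _
    · omega
  have h1 := Nat.le_of_dvd (Nat.mul_pos (Mc_pos K) (nbad_pos n _ c)) hdvd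
  have h2 : (Nat.gcd n (qv M (cz c)).natAbs : ℝ) ≤ (Mc K : ℝ) * nbad n (Bs K n M) c := by
    exact_mod_cast h1
  refine h2.trans ?_
  have e : 8 * (1 / (K : ℝ)) = 8 / K := by ring
  rw [e] at hcb
  exact mul_le_mul_of_nonneg_left hcb (by positivity)

end Pool.Agent.PP5V
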