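import Pool.Agent.PP5V.Ta
import Pool.Agent.PP5V.Wb
import Pool.Agent.FTA.DivB

/-!
# PP5 (D'), tail lemma: symmetric matrices all of whose `2 x 2` minors are divisible by a large `n`
-/

set_option autoImplicit false

namespace Pool.Agent.PP5V

open Matrix Pool.Agent.PP5P

/-- integers in `[-B, B]` in one residue class modulo `s` -/
theorem arith_card {s : ℕ} (hs : 0 < s) {B : ℝ} (A : Finset ℤ)
    (hA : ∀ a ∈ A, |(a : ℝ)| ≤ B) (hc : ∀ a ∈ A, ∀ b ∈ A, (s : ℤ) ∣ a - b) (hB : 0 ≤ B) :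
    (A.card : ℝ) ≤ 1 + 2 * B / s := by
  have hs' : (0 : ℝ) < s := by exact_mod_cast hs
  have hsz : (0 : ℤ) < s := by exact_mod_cast hs
  rcases A.eq_empty_or_nonempty with h0 | h0
  · rw [h0, Finset.card_empty]
    have : 0 ≤ 2 * B / (s : ℝ) := by positivity
    push_cast
    linarith
  · set a := A.min' h0 with ha
    have haA : a ∈ A := A.min'_mem h0
    have hinj : A.card ≤ (Finset.range (⌊2 * B / (s : ℝ)⌋₊ + 1)).card := by
      refine Finset.card_le_card_of_injOn (fun k => ((k - a) / (s : ℤ)).toNat) ?_ ?_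
      · intro k hk
        have hk' : k ∈ A := hk
        have h1 : a ≤ k := A.min'_le k hk'
        have h2 : (0 : ℤ) ≤ (k - a) / (s : ℤ) := Int.ediv_nonneg (by linarith) hsz.le
        simp only [Finset.coe_range, Set.mem_Iio]
        refine Nat.lt_succ_of_le (Nat.le_floor ?_)
        rw [le_div_iff₀ hs']
        obtain ⟨q, hq⟩ := hc k hk' a haA
        have h3 : (k - a) / (s : ℤ) = q := by rw [hq]; exact Int.mul_ediv_cancel_left q hsz.ne'
        rw [h3] at h2 ⊢
        have h4 : ((q.toNat : ℕ) : ℤ) = q := Int.toNat_of_nonneg h2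
        have h5 : (((q.toNat : ℕ) : ℝ)) = (q : ℝ) := by
          have e := congrArg (Int.cast (R := ℝ)) h4
          rw [Int.cast_natCast] at e
          exact e
        rw [h5]
        have h6 : ((k : ℝ) - a) = s * q := by
          have := congrArg (fun z : ℤ => (z : ℝ)) hq
          push_cast at this
          exact this
        have h7 := abs_le.1 (hA k hk')
        have h8 := abs_le.1 (hA a haA)
        nlinarith
      · intro k hk k' hk' he
        have hk1 : k ∈ A := hk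
        have hk2 : k' ∈ A := hk'
        have h1 : a ≤ k := A.min'_le k hk1
        have h1' : a ≤ k' := A.min'_le k' hk2
        obtain ⟨q, hq⟩ := hc k hk1 a haA
        obtain ⟨q', hq'⟩ := hc k' hk2 a haA
        have h3 : (k - a) / (s : ℤ) = q := by rw [hq]; exact Int.mul_ediv_cancel_left q hsz.ne'
        have h3' : (k' - a) / (s : ℤ) = q' := by
          rw [hq']; exact Int.mul_ediv_cancel_left q' hsz.ne'
        have h2 : (0 : ℤ) ≤ (k - a) / (s : ℤ) := Int.ediv_nonneg (by linarith) hsz.le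
        have h2' : (0 : ℤ) ≤ (k' - a) / (s : ℤ) := Int.ediv_nonneg (by linarith) hsz.le
        simp only at he
        rw [h3] at he h2
        rw [h3'] at he h2'
        have h4 : q = q' := by
          have e1 : ((q.toNat : ℕ) : ℤ) = q := Int.toNat_of_nonneg h2
          have e2 : ((q'.toNat : ℕ) : ℤ) = q' := Int.toNat_of_nonneg h2'
          rw [← e1, ← e2, he]
        rw [h4] at hq
        linarith
    rw [Finset.card_range] at hinj
    have h9 : (A.card : ℝ) ≤ (⌊2 * B / (s : ℝ)⌋₊ : ℝ) + 1 := by exact_mod_cast hinj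
    have h10 : (⌊2 * B / (s : ℝ)⌋₊ : ℝ) ≤ 2 * B / s := Nat.floor_le (by positivity)
    linarith

/-- the matrices in a box -/
theorem mat_card {Y : ℝ} (hY : 0 ≤ Y) (S : Finset (Matrix (Fin 4) (Fin 4) ℤ)) {q : ℝ}
    (A : Fin 4 → Fin 4 → Finset ℤ) (hA : ∀ a b, ((A a b).card : ℝ) ≤ q)
    (h : ∀ M ∈ S, ∀ a b, M a b ∈ A a b) : (S.card : ℝ) ≤ q ^ 16 := by
  classical
  have hinj : S.card ≤ (Fintype.piFinset fun p : Fin 4 × Fin 4 => A p.1 p.2).card := by
    refine Finset.card_le_card_of_injOn (fun M (p : Fin 4 × Fin 4) => M p.1 p.2) ?_ ?_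
    · intro M hM
      have hM' : M ∈ S := hM
      simp only [Finset.mem_coe, Fintype.mem_piFinset]
      exact fun p => h M hM' p.1 p.2
    · intro M _ M' _ he
      ext a b
      exact congrFun he (a, b)
  have h1 : (S.card : ℝ) ≤ ∏ p : Fin 4 × Fin 4, ((A p.1 p.2).card : ℝ) := by
    rw [Fintype.card_piFinset] at hinj
    exact_mod_cast hinj
  refine h1.trans ?_
  calc ∏ p : Fin 4 × Fin 4, ((A p.1 p.2).card : ℝ) ≤ ∏ _p : Fin 4 × Fin 4, q :=
        Finset.prod_le_prod (fun _ _ => Nat.cast_nonneg _) fun p _ => hA p.1 p.2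
    _ = q ^ 16 := by rw [Finset.prod_const]; norm_num

/-- one class: `c`, `M c`, `n` given -/
theorem fib_card {Y : ℝ} (hY : 0 ≤ Y) {n d : ℕ} (c : Fin 4 → ℕ) (ρ : Fin 4 → ℤ)
    (hd : 0 < d) (hdn : d * Nat.gcd n (cz c ⬝ᵥ ρ).natAbs = n) (hn0 : n ≠ 0)
    (S : Finset (Matrix (Fin 4) (Fin 4) ℤ))
    (h : ∀ M ∈ S, (∀ i j, M i j = M j i) ∧ (∀ i j, |(M i j : ℝ)| ≤ Y) ∧
      (∀ a b c d, (n : ℤ) ∣ mr M a b c d) ∧ M *ᵥ cz c = ρ) :
    (S.card : ℝ) ≤ (1 + 2 * Y / d) ^ 16 := by
  classical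
  refine mat_card hY S (fun a b => S.image (fun M => M a b)) (fun a b => ?_)
    (fun M hM a b => Finset.mem_image_of_mem _ hM)
  refine arith_card hd _ ?_ ?_ hY
  · intro z hz
    obtain ⟨M, hM, rfl⟩ := Finset.mem_image.1 hz
    exact (h M hM).2.1 a b
  · intro z hz z' hz'
    obtain ⟨M, hM, rfl⟩ := Finset.mem_image.1 hz
    obtain ⟨M', hM', rfl⟩ := Finset.mem_image.1 hz'
    obtain ⟨s1, _, m1, r1⟩ := h M hM
    obtain ⟨s2, _, m2, r2⟩ := h M' hM'
    have e1 := n_dvd_row s1 m1 (cz c) a b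
    have e2 := n_dvd_row s2 m2 (cz c) a b
    rw [r1] at e1
    rw [r2] at e2
    have q1 : qv M (cz c) = cz c ⬝ᵥ ρ := by rw [qv, r1]
    have q2 : qv M' (cz c) = cz c ⬝ᵥ ρ := by rw [qv, r2]
    rw [q1] at e1
    rw [q2] at e2
    set Q := cz c ⬝ᵥ ρ with hQ
    have h3 : (n : ℤ) ∣ Q * (M a b - M' a b) := by
      have := dvd_sub e1 e2
      have e : Q * M a b - ρ a * ρ b - (Q * M' a b - ρ a * ρ b) = Q * (M a b - M' a b) := by ring
      rwa [e] at this
    have h4 : n ∣ Q.natAbs * (M a b - M' a b).natAbs := by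
      rw [← Int.natAbs_mul]; exact Int.natCast_dvd.1 h3
    have h5 : n ∣ n * (M a b - M' a b).natAbs := dvd_mul_right _ _
    have h6 := Nat.dvd_gcd h5 h4
    rw [Nat.gcd_mul_right] at h6
    have hg : 0 < Nat.gcd n Q.natAbs := Nat.gcd_pos_of_pos_left _ (Nat.pos_of_ne_zero hn0)
    have h7 : d ∣ (M a b - M' a b).natAbs := by
      have h8 : d * Nat.gcd n Q.natAbs ∣ (M a b - M' a b).natAbs * Nat.gcd n Q.natAbs := by
        rw [hdn, mul_comm]; exact h6
      exact Nat.dvd_of_mul_dvd_mul_right hg h8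
    exact Int.natCast_dvd.2 h7

end Pool.Agent.PP5V
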