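import Pool.Agent.PP5V.Tb

/-!
# PP5 (D'), tail lemma: the count
-/

set_option autoImplicit false

namespace Pool.Agent.PP5V

open Matrix Pool.Agent.PP5P

/-- the data of the count -/
def nn (i : (Fin 4 → ℕ) × (Fin 4 → ℤ) × (Fin 4 × Fin 4) × ℤ) : ℤ :=
  (cz i.1 ⬝ᵥ i.2.1) * i.2.2.2 - i.2.1 i.2.2.1.1 * i.2.1 i.2.2.1.2

theorem row_le {K : ℕ} {Y : ℝ} {M : Matrix (Fin 4) (Fin 4) ℤ} (hM : ∀ i j, |(M i j : ℝ)| ≤ Y)
    {c : Fin 4 → ℕ} (hc : ∀ i, c i < K) (j : Fin 4) : |((M *ᵥ cz c) j : ℝ)| ≤ 4 * K * Y := by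
  have hY : 0 ≤ Y := (abs_nonneg _).trans (hM 0 0)
  simp only [mulVec, dotProduct, cz]
  push_cast
  refine (Finset.abs_sum_le_sum_abs _ _).trans ?_
  calc ∑ i, |(M j i : ℝ) * (c i : ℝ)| ≤ ∑ _i : Fin 4, Y * K := by
        refine Finset.sum_le_sum fun i _ => ?_
        rw [abs_mul]
        refine mul_le_mul (hM j i) ?_ (abs_nonneg _) hY
        rw [abs_of_nonneg (Nat.cast_nonneg _)]
        exact_mod_cast (hc i).le
    _ = 4 * K * Y := by simp; ring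

theorem dot_le {K : ℕ} {B : ℝ} {ρ : Fin 4 → ℤ} (hρ : ∀ i, |(ρ i : ℝ)| ≤ B)
    {c : Fin 4 → ℕ} (hc : ∀ i, c i < K) : |((cz c ⬝ᵥ ρ : ℤ) : ℝ)| ≤ 4 * K * B := by
  have hB : 0 ≤ B := (abs_nonneg _).trans (hρ 0)
  simp only [dotProduct, cz]
  push_cast
  refine (Finset.abs_sum_le_sum_abs _ _).trans ?_
  calc ∑ i, |(c i : ℝ) * (ρ i : ℝ)| ≤ ∑ _i : Fin 4, K * B := by
        refine Finset.sum_le_sum fun i _ => ?_
        rw [abs_mul]
        refine mul_le_mul ?_ (hρ i) (abs_nonneg _) (Nat.cast_nonneg _)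
        rw [abs_of_nonneg (Nat.cast_nonneg _)]
        exact_mod_cast (hc i).le
    _ = 4 * K * B := by simp; ring

/-- `1 / d` -/
theorem one_div_d {Y a Mk : ℝ} {n d g : ℕ} (hY : 0 < Y) (hn : Y < 16 * n) (hd : 0 < d) (hdg : d * g = n)
    (ha0 : 0 ≤ a) (ha : a < 1) (hg : (g : ℝ) ≤ Mk * (n : ℝ) ^ a) :
    2 * Y / d ≤ 32 * Mk * Y ^ a := by
  have hd' : (0 : ℝ) < d := by exact_mod_cast hd
  have hn0 : (0 : ℝ) < n := by linarith
  have h1 : (d : ℝ) * g = n := by exact_mod_cast hdg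
  rw [div_le_iff₀ hd']
  have h2 : (n : ℝ) ≤ d * (Mk * (n : ℝ) ^ a) := by
    calc (n : ℝ) = d * g := h1.symm
      _ ≤ _ := mul_le_mul_of_nonneg_left hg hd'.le
  -- n ^ (1 - a) ≤ d * Mk, Y ^ (1 - a) ≤ n ^ (1 - a)
  have h3 : (n : ℝ) ^ (1 - a) * (n : ℝ) ^ a = n := by
    rw [← Real.rpow_add hn0]; simp
  have hna : 0 < (n : ℝ) ^ a := Real.rpow_pos_of_pos hn0 _
  have h4 : (n : ℝ) ^ (1 - a) ≤ d * Mk := by
    have : (n : ℝ) ^ (1 - a) * (n : ℝ) ^ a ≤ (d * Mk) * (n : ℝ) ^ a := by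
      rw [h3]; linarith
    exact le_of_mul_le_mul_right this hna
  have h5 : Y ^ (1 - a) ≤ 16 * (n : ℝ) ^ (1 - a) := by
    have h8 : Y ^ (1 - a) ≤ (16 * (n : ℝ)) ^ (1 - a) := Real.rpow_le_rpow hY.le hn.le (by linarith)
    rw [Real.mul_rpow (by norm_num) hn0.le] at h8
    have h9 : (16 : ℝ) ^ (1 - a) ≤ 16 ^ (1 : ℝ) := Real.rpow_le_rpow_of_exponent_le (by norm_num) (by linarith)
    rw [Real.rpow_one] at h9
    exact h8.trans (mul_le_mul_of_nonneg_right h9 (Real.rpow_nonneg hn0.le _))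
  have h6 : Y ^ (1 - a) * Y ^ a = Y := by
    rw [← Real.rpow_add hY]; simp
  have hYa : 0 < Y ^ a := Real.rpow_pos_of_pos hY _
  have h7 : Y ≤ (16 * (d * Mk)) * Y ^ a := by
    calc Y = Y ^ (1 - a) * Y ^ a := h6.symm
      _ ≤ _ := mul_le_mul_of_nonneg_right (h5.trans (by linarith)) hYa.le
  calc 2 * Y ≤ 2 * ((16 * (d * Mk)) * Y ^ a) := by linarith
    _ = 32 * Mk * Y ^ a * d := by ring

theorem rank_two {M : Matrix (Fin 4) (Fin 4) ℤ} {Q : ℤ} (hQ : Q ≠ 0) {ρ : Fin 4 → ℤ}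
    (h : ∃ a b c d, mr M a b c d ≠ 0) : ∃ j k, Q * M j k - ρ j * ρ k ≠ 0 := by
  by_contra hcon
  push Not at hcon
  obtain ⟨a, b, c, d, hm⟩ := h
  apply hm
  have e : Q * Q * mr M a b c d = 0 := by
    have h1 := hcon a c
    have h2 := hcon b d
    have h3 := hcon a d
    have h4 := hcon b c
    unfold mr
    have e1 : Q * M a c = ρ a * ρ c := by linarith
    have e2 : Q * M b d = ρ b * ρ d := by linarith
    have e3 : Q * M a d = ρ a * ρ d := by linarith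
    have e4 : Q * M b c = ρ b * ρ c := by linarith
    calc Q * Q * (M a c * M b d - M a d * M b c) = (Q * M a c) * (Q * M b d) - (Q * M a d) * (Q * M b c) := by ring
      _ = 0 := by rw [e1, e2, e3, e4]; ring
  rcases mul_eq_zero.1 e with h5 | h5
  · exact absurd (mul_self_eq_zero.1 h5) hQ
  · exact h5

/-- the properties of the matrices -/
structure Tp (Y : ℝ) (n : ℕ) (M : Matrix (Fin 4) (Fin 4) ℤ) : Prop where
  sy : ∀ i j, M i j = M j i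
  bd : ∀ i j, |(M i j : ℝ)| ≤ Y
  r2 : ∃ a b c d, mr M a b c d ≠ 0
  nY : Y < 16 * n
  mi : ∀ a b c d, (n : ℤ) ∣ mr M a b c d
  ct : Cnt n M

/-- TAIL LEMMA -/
theorem tail {ε : ℝ} (hε : 0 < ε) : ∃ C : ℝ, 1 ≤ C ∧ ∀ Y : ℝ, 1 ≤ Y →
    ∀ S : Finset (Matrix (Fin 4) (Fin 4) ℤ), (∀ M ∈ S, ∃ n : ℕ, Tp Y n M) →
    (S.card : ℝ) ≤ C * Y ^ (5 + ε) := by
  classical
  obtain ⟨K, hKε⟩ := exists_nat_gt (256 / ε + 16)
  have hK16 : (16 : ℝ) < K := by
    have : 0 < 256 / ε := by positivity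
    linarith
  have hK0 : 0 < K := by
    have : (0 : ℝ) < K := by linarith
    exact_mod_cast this
  have hKr : (0 : ℝ) < K := by exact_mod_cast hK0
  have hKe : 128 / (K : ℝ) ≤ ε / 2 := by
    rw [div_le_div_iff₀ hKr (by norm_num)]
    have h1 : 256 / ε < K := by linarith
    rw [div_lt_iff₀ hε] at h1
    linarith
  set a : ℝ := 8 / (K : ℝ) with ha
  have ha0 : 0 < a := by positivity
  have ha1 : a ≤ 1 / 2 := by rw [ha, div_le_iff₀ hKr]; linarith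
  obtain ⟨cd, hcd0, hcd⟩ := Pool.Agent.FTA.divisor_bound (show 0 < ε / 4 by positivity)
  set Mk : ℝ := (Mc K : ℝ) with hMk
  have hMk1 : 1 ≤ Mk := by
    rw [hMk]; exact_mod_cast Mc_pos K
  set C1 : ℝ := (K : ℝ) ^ 4 * (9 * K) ^ 4 * 16 * 3 * (cd * (32 * K ^ 2) ^ (ε / 4)) * (33 * Mk) ^ 16 with hC1
  have hC10 : 0 ≤ C1 := by positivity
  refine ⟨C1 + (1 + 32 * Mk ^ 2) ^ 16, ?_, ?_⟩
  · have : (1 : ℝ) ≤ (1 + 32 * Mk ^ 2) ^ 16 := one_le_pow₀ (by nlinarith)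
    linarith
  intro Y hY S hS
  have hY0 : 0 < Y := by linarith
  have hYe : 1 ≤ Y ^ (5 + ε) := Real.one_le_rpow hY (by linarith)
  rcases le_or_gt Y (16 * Mk ^ 2) with hsm | hlarge
  · have h1 : (S.card : ℝ) ≤ (1 + 2 * Y) ^ 16 := by
      refine mat_card hY0.le S (fun _ _ => Finset.Icc (-⌊Y⌋) ⌊Y⌋) (fun _ _ => ?_) (fun M hM a b => ?_)
      · have := Icc_card hY0.le
        linarith
      · obtain ⟨n, hn⟩ := hS M hM
        exact mem_Icc_of_abs (hn.bd a b)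
    have h2 : (1 + 2 * Y) ^ 16 ≤ (1 + 32 * Mk ^ 2) ^ 16 := pow_le_pow_left₀ (by linarith) (by linarith) _
    have h3 : (0 : ℝ) ≤ (1 + 32 * Mk ^ 2) ^ 16 := zero_le_one.trans (one_le_pow₀
      (le_add_of_nonneg_right (mul_nonneg (by norm_num) (sq_nonneg Mk))))
    exact (h1.trans h2).trans ((le_add_of_nonneg_left hC10).trans
      (le_mul_of_one_le_right (add_nonneg hC10 h3) hYe))
  -- choices
  have hch : ∀ M ∈ S, ∃ (n : ℕ) (c : Fin 4 → ℕ) (jk : Fin 4 × Fin 4), Tp Y n M ∧ (∀ i, c i < K) ∧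
      (Nat.gcd n (qv M (cz c)).natAbs : ℝ) ≤ Mk * (n : ℝ) ^ a ∧
      qv M (cz c) * M jk.1 jk.2 - (M *ᵥ cz c) jk.1 * (M *ᵥ cz c) jk.2 ≠ 0 := by
    intro M hM
    obtain ⟨n, hn⟩ := hS M hM
    have hn0 : n ≠ 0 := by
      rintro rfl
      have := hn.nY
      simp at this
      linarith
    have hn0r : (0 : ℝ) < n := by have := hn.nY; linarith
    obtain ⟨c, hc, hg⟩ := av hK0 hn0 hn.sy hn.mi hn.ct
    have hQ : qv M (cz c) ≠ 0 := by
      intro h0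
      rw [h0] at hg
      simp only [Int.natAbs_zero, Nat.gcd_zero_right] at hg
      have h1 : (n : ℝ) ^ (1 - a) * (n : ℝ) ^ a = n := by rw [← Real.rpow_add hn0r]; simp
      have hna : 0 < (n : ℝ) ^ a := Real.rpow_pos_of_pos hn0r _
      have h2 : (n : ℝ) ^ (1 - a) ≤ Mk := by
        have : (n : ℝ) ^ (1 - a) * (n : ℝ) ^ a ≤ Mk * (n : ℝ) ^ a := by rw [h1]; exact hg
        exact le_of_mul_le_mul_right this hna
      have hn1 : (1 : ℝ) ≤ n := by exact_mod_cast Nat.one_le_iff_ne_zero.2 hn0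
      have h3 : (n : ℝ) ^ ((1 : ℝ) / 2) ≤ (n : ℝ) ^ (1 - a) := Real.rpow_le_rpow_of_exponent_le hn1 (by linarith)
      have h4 : ((n : ℝ) ^ ((1 : ℝ) / 2)) ^ 2 = n := by
        rw [← Real.rpow_natCast, ← Real.rpow_mul hn0r.le]; norm_num
      have h5 : ((n : ℝ) ^ ((1 : ℝ) / 2)) ^ 2 ≤ Mk ^ 2 := pow_le_pow_left₀ (by positivity) (h3.trans h2) _
      rw [h4] at h5
      have := hn.nY
      linarith
    obtain ⟨j, k, hjk⟩ := rank_two hQ (ρ := M *ᵥ cz c) hn.r2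
    exact ⟨n, c, (j, k), hn, hc, hg, hjk⟩
  choose! nf cf jf hT hcK hg hne using hch
  set Φ : Matrix (Fin 4) (Fin 4) ℤ → (Fin 4 → ℕ) × (Fin 4 → ℤ) × (Fin 4 × Fin 4) × ℤ :=
    fun M => (cf M, M *ᵥ cz (cf M), jf M, M (jf M).1 (jf M).2) with hΦ
  set Ψ : Matrix (Fin 4) (Fin 4) ℤ → (Σ _ : (Fin 4 → ℕ) × (Fin 4 → ℤ) × (Fin 4 × Fin 4) × ℤ, ℕ) :=
    fun M => ⟨Φ M, nf M⟩ with hΨ
  set B : ℝ := 4 * K * Y with hB
  have hB0 : 0 ≤ B := by positivity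
  set Ib : Finset ((Fin 4 → ℕ) × (Fin 4 → ℤ) × (Fin 4 × Fin 4) × ℤ) :=
    (Fintype.piFinset fun _ => Finset.range K) ×ˢ ((Fintype.piFinset fun _ => Finset.Icc (-⌊B⌋) ⌊B⌋) ×ˢ
      ((Finset.univ : Finset (Fin 4 × Fin 4)) ×ˢ Finset.Icc (-⌊Y⌋) ⌊Y⌋)) with hIb
  have hIbc : (Ib.card : ℝ) ≤ (K : ℝ) ^ 4 * (9 * K * Y) ^ 4 * 16 * (3 * Y) := by
    rw [hIb, Finset.card_product, Finset.card_product, Finset.card_product, Fintype.card_piFinset,
      Fintype.card_piFinset]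
    simp only [Finset.card_range, Finset.prod_const, Finset.card_univ, Fintype.card_fin,
      Fintype.card_prod]
    push_cast
    have h1 := Icc_card hB0
    have h2 := Icc_card hY0.le
    have hK1 : (1 : ℝ) ≤ K := by linarith
    have h3 : ((Finset.Icc (-⌊B⌋) ⌊B⌋).card : ℝ) ≤ 9 * K * Y := by
      have : 1 ≤ K * Y := one_le_mul_of_one_le_of_one_le hK1 hY
      rw [hB] at h1
      linarith only [h1, this]
    have h4 : ((Finset.Icc (-⌊Y⌋) ⌊Y⌋).card : ℝ) ≤ 3 * Y := by linarith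
    have h5 : ((Finset.Icc (-⌊B⌋) ⌊B⌋).card : ℝ) ^ 4 ≤ (9 * K * Y) ^ 4 :=
      pow_le_pow_left₀ (Nat.cast_nonneg _) h3 _
    have h6 : ((Finset.Icc (-⌊B⌋) ⌊B⌋).card : ℝ) ^ 4 * (16 * ((Finset.Icc (-⌊Y⌋) ⌊Y⌋).card : ℝ)) ≤
        (9 * K * Y) ^ 4 * (16 * (3 * Y)) := by
      refine mul_le_mul h5 (by linarith) (by positivity) (by positivity)
    calc (K : ℝ) ^ 4 * (((Finset.Icc (-⌊B⌋) ⌊B⌋).card : ℝ) ^ 4 * (16 * ((Finset.Icc (-⌊Y⌋) ⌊Y⌋).card : ℝ)))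
        ≤ (K : ℝ) ^ 4 * ((9 * K * Y) ^ 4 * (16 * (3 * Y))) := mul_le_mul_of_nonneg_left h6 (by positivity)
      _ = _ := by ring
  -- membership
  have hΦm : ∀ M ∈ S, Φ M ∈ Ib := by
    intro M hM
    rw [hIb, Finset.mem_product, Finset.mem_product, Finset.mem_product]
    refine ⟨?_, ?_, Finset.mem_univ _, ?_⟩
    · rw [Fintype.mem_piFinset]; exact fun i => Finset.mem_range.2 (hcK M hM i)
    · rw [Fintype.mem_piFinset]
      intro i
      exact mem_Icc_of_abs (row_le (hT M hM).bd (hcK M hM) i)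
    · exact mem_Icc_of_abs ((hT M hM).bd _ _)
  have hnne : ∀ M ∈ S, nn (Φ M) ≠ 0 := fun M hM => hne M hM
  set D : ℝ := cd * (32 * K ^ 2) ^ (ε / 4) * Y ^ (ε / 2) with hD
  have hD0 : 0 ≤ D := by positivity
  have hdiv : ∀ i ∈ Ib, (((nn i).natAbs.divisors.card : ℕ) : ℝ) ≤ D := by
    intro i hi
    by_cases h0 : (nn i).natAbs = 0
    · rw [h0]; simpa using hD0
    rw [hIb, Finset.mem_product, Finset.mem_product, Finset.mem_product] at hi
    obtain ⟨h1, h2, -, h3⟩ := hi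
    have k1 : ∀ t, i.1 t < K := fun t => Finset.mem_range.1 (Fintype.mem_piFinset.1 h1 t)
    have k2 : ∀ t, |(i.2.1 t : ℝ)| ≤ B := by
      intro t
      have h5 := Finset.mem_Icc.1 (Fintype.mem_piFinset.1 h2 t)
      have h6 : (i.2.1 t : ℝ) ≤ ⌊B⌋ := by exact_mod_cast h5.2
      have h7 : (-(⌊B⌋ : ℝ)) ≤ i.2.1 t := by exact_mod_cast h5.1
      have h8 := Int.floor_le B
      rw [abs_le]; constructor <;> linarith
    have k3 : |(i.2.2.2 : ℝ)| ≤ Y := by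
      have h5 := Finset.mem_Icc.1 h3
      have h6 : (i.2.2.2 : ℝ) ≤ ⌊Y⌋ := by exact_mod_cast h5.2
      have h7 : (-(⌊Y⌋ : ℝ)) ≤ i.2.2.2 := by exact_mod_cast h5.1
      have h8 := Int.floor_le Y
      rw [abs_le]; constructor <;> linarith
    have k4 := dot_le k2 k1
    have k5 : |((nn i : ℤ) : ℝ)| ≤ 32 * K ^ 2 * Y ^ 2 := by
      unfold nn
      push_cast
      refine (abs_sub _ _).trans ?_
      rw [abs_mul, abs_mul]
      have e1 : |((cz i.1 ⬝ᵥ i.2.1 : ℤ) : ℝ)| * |(i.2.2.2 : ℝ)| ≤ (4 * K * B) * Y :=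
        mul_le_mul k4 k3 (abs_nonneg _) (by positivity)
      have e2 : |(i.2.1 i.2.2.1.1 : ℝ)| * |(i.2.1 i.2.2.1.2 : ℝ)| ≤ B * B :=
        mul_le_mul (k2 _) (k2 _) (abs_nonneg _) hB0
      have e3 : (4 * K * B) * Y + B * B = 32 * K ^ 2 * Y ^ 2 := by rw [hB]; ring
      linarith
    have k6 : (((nn i).natAbs : ℕ) : ℝ) ≤ 32 * K ^ 2 * Y ^ 2 := by
      rw [Nat.cast_natAbs]; push_cast; exact k5
    refine (hcd _ h0).trans ?_
    have k7 : (((nn i).natAbs : ℕ) : ℝ) ^ (ε / 4) ≤ (32 * K ^ 2 * Y ^ 2) ^ (ε / 4) :=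
      Real.rpow_le_rpow (Nat.cast_nonneg _) k6 (by positivity)
    have k8 : (32 * (K : ℝ) ^ 2 * Y ^ 2) ^ (ε / 4) = (32 * K ^ 2) ^ (ε / 4) * Y ^ (ε / 2) := by
      rw [Real.mul_rpow (by positivity) (by positivity), ← Real.rpow_natCast Y 2, ← Real.rpow_mul hY0.le]
      congr 2
      push_cast
      ring
    rw [k8] at k7
    calc cd * (((nn i).natAbs : ℕ) : ℝ) ^ (ε / 4) ≤ cd * ((32 * K ^ 2) ^ (ε / 4) * Y ^ (ε / 2)) :=
          mul_le_mul_of_nonneg_left k7 hcd0.le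
      _ = D := by rw [hD]; ring
  have himg : ((S.image Ψ).card : ℝ) ≤ (Ib.card : ℝ) * D := by
    have hsub : S.image Ψ ⊆ Ib.sigma fun i => (nn i).natAbs.divisors := by
      intro t ht
      obtain ⟨M, hM, rfl⟩ := Finset.mem_image.1 ht
      rw [Finset.mem_sigma]
      refine ⟨hΦm M hM, ?_⟩
      rw [Nat.mem_divisors]
      refine ⟨?_, Int.natAbs_ne_zero.2 (hnne M hM)⟩
      exact Int.natCast_dvd.1 (n_dvd_row (hT M hM).sy (hT M hM).mi (cz (cf M)) _ _)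
    have h1 := Finset.card_le_card hsub
    rw [Finset.card_sigma] at h1
    have h2 : ((S.image Ψ).card : ℝ) ≤ ∑ i ∈ Ib, (((nn i).natAbs.divisors.card : ℕ) : ℝ) := by
      exact_mod_cast h1
    refine h2.trans ((Finset.sum_le_sum hdiv).trans ?_)
    rw [Finset.sum_const, nsmul_eq_mul]
  -- fibres
  set Bf : ℝ := (33 * Mk) ^ 16 * Y ^ (ε / 2) with hBf
  have hfib : ∀ t ∈ S.image Ψ, (((S.filter (fun M => Ψ M = t)).card : ℕ) : ℝ) ≤ Bf := by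
    intro t ht
    obtain ⟨M0, hM0, rfl⟩ := Finset.mem_image.1 ht
    set n := nf M0 with hn
    set c := cf M0 with hc
    set ρ := M0 *ᵥ cz (cf M0) with hρ
    have hT0 := hT M0 hM0
    have hn0 : n ≠ 0 := by
      intro h
      have := hT0.nY
      rw [← hn, h] at this
      simp at this
      linarith
    have hQe : (qv M0 (cz c)) = cz c ⬝ᵥ ρ := rfl
    have hg0 : 0 < Nat.gcd n (cz c ⬝ᵥ ρ).natAbs := Nat.gcd_pos_of_pos_left _ (Nat.pos_of_ne_zero hn0)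
    set d := n / Nat.gcd n (cz c ⬝ᵥ ρ).natAbs with hd
    have hdn : d * Nat.gcd n (cz c ⬝ᵥ ρ).natAbs = n := Nat.div_mul_cancel (Nat.gcd_dvd_left _ _)
    have hd0 : 0 < d := Nat.pos_of_ne_zero fun h => hn0 (by rw [← hdn, h, zero_mul])
    have h1 := fib_card hY0.le c ρ hd0 hdn hn0 (S.filter (fun M => Ψ M = Ψ M0)) (by
      intro M hM
      obtain ⟨hMS, hMe⟩ := Finset.mem_filter.1 hM
      have e1 : Φ M = Φ M0 := congrArg Sigma.fst hMe
      have e2 : nf M = nf M0 := by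
        have := hMe
        simp only [hΨ, Sigma.mk.injEq] at this
        exact eq_of_heq this.2
      have e3 : cf M = cf M0 := congrArg (fun p => p.1) e1
      have e4 : M *ᵥ cz (cf M) = M0 *ᵥ cz (cf M0) := congrArg (fun p => p.2.1) e1
      have hTM := hT M hMS
      refine ⟨hTM.sy, hTM.bd, ?_, ?_⟩
      · have := hTM.mi
        rw [e2] at this
        exact this
      · rw [hc, ← e3, e4])
    refine h1.trans ?_
    have h2 := one_div_d hY0 hT0.nY hd0 hdn ha0.le (by linarith : a < 1) (hg M0 hM0)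
    have hYa : 1 ≤ Y ^ a := Real.one_le_rpow hY ha0.le
    have h32 : 1 ≤ Mk * Y ^ a := one_le_mul_of_one_le_of_one_le hMk1 hYa
    have h3 : 1 + 2 * Y / d ≤ 33 * Mk * Y ^ a := by linarith only [h2, h32]
    have h4 : (1 + 2 * Y / (d : ℝ)) ^ 16 ≤ (33 * Mk * Y ^ a) ^ 16 := pow_le_pow_left₀ (by positivity) h3 _
    refine h4.trans ?_
    rw [mul_pow, hBf]
    refine mul_le_mul_of_nonneg_left ?_ (by positivity)
    rw [← Real.rpow_natCast (Y ^ a) 16, ← Real.rpow_mul hY0.le]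
    refine Real.rpow_le_rpow_of_exponent_le hY ?_
    rw [ha]
    push_cast
    have : 8 / (K : ℝ) * 16 = 128 / K := by ring
    rw [this]
    exact hKe
  have hBf0 : 0 ≤ Bf := by positivity
  have hmain : (S.card : ℝ) ≤ ((Ib.card : ℝ) * D) * Bf := by
    calc (S.card : ℝ) = ∑ t ∈ S.image Ψ, (((S.filter (fun M => Ψ M = t)).card : ℕ) : ℝ) := by
          rw [Finset.card_eq_sum_card_image Ψ S]; push_cast; rfl
      _ ≤ ∑ _t ∈ S.image Ψ, Bf := Finset.sum_le_sum hfib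
      _ = ((S.image Ψ).card : ℝ) * Bf := by rw [Finset.sum_const, nsmul_eq_mul]
      _ ≤ _ := mul_le_mul_of_nonneg_right himg hBf0
  refine hmain.trans ?_
  have h5 : ((Ib.card : ℝ) * D) * Bf ≤ ((K : ℝ) ^ 4 * (9 * K * Y) ^ 4 * 16 * (3 * Y) * D) * Bf :=
    mul_le_mul_of_nonneg_right (mul_le_mul_of_nonneg_right hIbc hD0) hBf0
  have h6 : ((K : ℝ) ^ 4 * (9 * K * Y) ^ 4 * 16 * (3 * Y) * D) * Bf = C1 * Y ^ (5 + ε) := by
    have e : Y ^ (5 + ε) = Y ^ 5 * (Y ^ (ε / 2) * Y ^ (ε / 2)) := by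
      rw [← Real.rpow_add hY0, Real.rpow_add hY0]
      congr 1
      · rw [← Real.rpow_natCast]; norm_num
      · congr 1; ring
    rw [e, hC1, hD, hBf]
    ring
  rw [h6] at h5
  have h7 : (0 : ℝ) ≤ (1 + 32 * Mk ^ 2) ^ 16 := zero_le_one.trans (one_le_pow₀
    (le_add_of_nonneg_right (mul_nonneg (by norm_num) (sq_nonneg Mk))))
  exact h5.trans (mul_le_mul_of_nonneg_right (le_add_of_nonneg_right h7) (zero_le_one.trans hYe))

end Pool.Agent.PP5V
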