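import Pool.Agent.PP5P.Rp

/-!
# PP5 (D'), lemma W: a quadratic polynomial is small at few integers; the maximal `2 x 2` minor
-/

set_option autoImplicit false

namespace Pool.Agent.PP5V

open Matrix Pool.Agent.PP5P

/-- a quadratic polynomial is bounded by `b` at few integers -/
theorem quad_count (A : Finset ℤ) {α β γ b : ℝ} (hα : α ≠ 0)
    (h : ∀ t ∈ A, |α * (t : ℝ) ^ 2 + β * t + γ| ≤ b) :
    (A.card : ℝ) ≤ 2 + 2 * √(2 * b / |α|) := by
  have hα' : 0 < |α| := abs_pos.2 hα
  have hs : 0 ≤ √(2 * b / |α|) := Real.sqrt_nonneg _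
  by_cases hn : A.card ≤ 2
  · have : (A.card : ℝ) ≤ 2 := by exact_mod_cast hn
    linarith
  push Not at hn
  set n := A.card with hndef
  set k := (n - 1) / 2 with hk
  have hk1 : 1 ≤ k := by omega
  have hk2 : 2 * k < n := by omega
  have hk3 : n ≤ 2 * k + 2 := by omega
  let f := A.orderEmbOfFin (k := n) hndef.symm
  have hmem : ∀ i, f i ∈ A := fun i => A.orderEmbOfFin_mem _ i
  have hstep : ∀ (d : ℕ) (i j : Fin n), (j : ℕ) = i + d → f i + d ≤ f j := by
    intro d
    induction d with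
    | zero =>
      intro i j hij
      have : i = j := Fin.ext (by omega)
      rw [this]; simp
    | succ d ih =>
      intro i j hij
      have hj : (i : ℕ) + d < n := by have := j.2; omega
      have h1 := ih i ⟨i + d, hj⟩ rfl
      have h2 : f ⟨i + d, hj⟩ < f j := f.strictMono (Fin.lt_def.2 (by simp only []; omega))
      push_cast
      linarith [Int.add_one_le_iff.2 h2]
  have hk0n : 0 < n := by omega
  have hkn : k < n := by omega
  set t1 : ℤ := f ⟨0, hk0n⟩ with ht1
  set t2 : ℤ := f ⟨k, hkn⟩ with ht2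
  set t3 : ℤ := f ⟨2 * k, hk2⟩ with ht3
  have d12 : t1 + k ≤ t2 := hstep k _ _ (by simp)
  have d23 : t2 + k ≤ t3 := hstep k _ _ (by simp; omega)
  have e1 := h t1 (hmem _)
  have e2 := h t2 (hmem _)
  have e3 := h t3 (hmem _)
  have d12' : (t1 : ℝ) + k ≤ t2 := by exact_mod_cast d12
  have d23' : (t2 : ℝ) + k ≤ t3 := by exact_mod_cast d23
  have hkr : (1 : ℝ) ≤ k := by exact_mod_cast hk1
  set a : ℝ := (t2 : ℝ) - t1 with ha
  set c : ℝ := (t3 : ℝ) - t2 with hc
  have ha1 : (k : ℝ) ≤ a := by rw [ha]; linarith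
  have hc1 : (k : ℝ) ≤ c := by rw [hc]; linarith
  have ha0 : 0 < a := by linarith
  have hc0 : 0 < c := by linarith
  have key : α * (a * c * (a + c)) = (α * (t1 : ℝ) ^ 2 + β * t1 + γ) * c -
      (α * (t2 : ℝ) ^ 2 + β * t2 + γ) * (a + c) + (α * (t3 : ℝ) ^ 2 + β * t3 + γ) * a := by
    rw [ha, hc]; ring
  have hbd : |α| * (a * c * (a + c)) ≤ b * c + b * (a + c) + b * a := by
    have h1 : |α * (a * c * (a + c))| = |α| * (a * c * (a + c)) := by
      rw [abs_mul, abs_of_pos (by positivity : 0 < a * c * (a + c))]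
    rw [← h1, key]
    refine (abs_add_le _ _).trans (add_le_add ((abs_sub _ _).trans (add_le_add ?_ ?_)) ?_)
    · rw [abs_mul, abs_of_pos hc0]; exact mul_le_mul_of_nonneg_right e1 hc0.le
    · rw [abs_mul, abs_of_pos (by linarith : 0 < a + c)]
      exact mul_le_mul_of_nonneg_right e2 (by linarith)
    · rw [abs_mul, abs_of_pos ha0]; exact mul_le_mul_of_nonneg_right e3 ha0.le
  have h2 : |α| * (a * c) ≤ 2 * b := by
    have hac : 0 < a + c := by linarith
    have : (|α| * (a * c)) * (a + c) ≤ (2 * b) * (a + c) := by nlinarith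
    exact le_of_mul_le_mul_right this hac
  have h3 : (k : ℝ) ^ 2 ≤ 2 * b / |α| := by
    rw [le_div_iff₀ hα']
    have : (k : ℝ) ^ 2 ≤ a * c := by nlinarith
    nlinarith
  have h4 : (k : ℝ) ≤ √(2 * b / |α|) := Real.le_sqrt_of_sq_le h3
  have h5 : (n : ℝ) ≤ 2 * k + 2 := by exact_mod_cast hk3
  linarith

/-- the case `|ac|` maximal -/
theorem mmax_core {aa cc ab ac ad bc bd cd P : ℝ} (hP : 0 ≤ P)
    (h1 : |ad| ≤ |ac|) (h2 : |bc| ≤ |ac|) (h3 : |bd| ≤ |ac|)
    (q1 : |aa * cc - ac * ac| ≤ P) (q2 : |aa * bd - ad * ab| ≤ P) (q3 : |aa * bc - ac * ab| ≤ P)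
    (q4 : |cc * bd - cd * bc| ≤ P) (q5 : |cc * ad - cd * ac| ≤ P) :
    |ac * bd - ad * bc| ≤ 4 * P := by
  by_contra hcon
  push Not at hcon
  set M := |ac| with hM
  have hM0 : 0 ≤ M := abs_nonneg _
  have hup : |ac * bd - ad * bc| ≤ 2 * M ^ 2 := by
    refine (abs_sub _ _).trans ?_
    rw [abs_mul, abs_mul]
    have a1 : |ac| * |bd| ≤ M * M := mul_le_mul le_rfl h3 (abs_nonneg _) hM0
    have a2 : |ad| * |bc| ≤ M * M := mul_le_mul h1 h2 (abs_nonneg _) hM0
    nlinarith
  have hM2 : 2 * P < M ^ 2 := by linarith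
  have hMpos : 0 < M := by
    rcases hM0.eq_or_lt with h | h
    · exfalso; rw [← h] at hM2; nlinarith
    · exact h
  have hprod : M ^ 2 / 2 < |aa| * |cc| := by
    have : ac * ac = M ^ 2 := by rw [hM, sq, abs_mul_abs_self]
    have h5 := abs_sub_abs_le_abs_sub (ac * ac) (aa * cc)
    rw [abs_sub_comm] at q1
    have h6 : |ac * ac| = M ^ 2 := by rw [this]; exact abs_of_nonneg (by positivity)
    rw [h6, abs_mul aa cc] at h5
    linarith
  have hor : M / 2 < |aa| ∨ M / 2 < |cc| := by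
    by_contra hno
    push Not at hno
    have : |aa| * |cc| ≤ (M / 2) * (M / 2) := mul_le_mul hno.1 hno.2 (abs_nonneg _) (by positivity)
    nlinarith
  have hM0' : |ac * bd - ad * bc| * M ≤ 4 * P * M := by
    rcases hor with h | h
    · have e : aa * (ac * bd - ad * bc) = ac * (aa * bd - ad * ab) - ad * (aa * bc - ac * ab) := by ring
      have h5 : |aa| * |ac * bd - ad * bc| ≤ M * P + M * P := by
        rw [← abs_mul, e]
        refine (abs_sub _ _).trans (add_le_add ?_ ?_)
        · rw [abs_mul]; exact mul_le_mul le_rfl q2 (abs_nonneg _) hM0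
        · rw [abs_mul]; exact mul_le_mul h1 q3 (abs_nonneg _) hM0
      have h6 := mul_le_mul_of_nonneg_right h.le (abs_nonneg (ac * bd - ad * bc))
      nlinarith
    · have e : cc * (ac * bd - ad * bc) = ac * (cc * bd - cd * bc) - bc * (cc * ad - cd * ac) := by ring
      have h5 : |cc| * |ac * bd - ad * bc| ≤ M * P + M * P := by
        rw [← abs_mul, e]
        refine (abs_sub _ _).trans (add_le_add ?_ ?_)
        · rw [abs_mul]; exact mul_le_mul le_rfl q4 (abs_nonneg _) hM0
        · rw [abs_mul]; exact mul_le_mul h2 q5 (abs_nonneg _) hM0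
      have h6 := mul_le_mul_of_nonneg_right h.le (abs_nonneg (ac * bd - ad * bc))
      nlinarith
  have := le_of_mul_le_mul_right hM0' hMpos
  linarith

theorem max4 (x y z w : ℝ) : (y ≤ x ∧ z ≤ x ∧ w ≤ x) ∨ (x ≤ y ∧ z ≤ y ∧ w ≤ y) ∨
    (x ≤ z ∧ y ≤ z ∧ w ≤ z) ∨ (x ≤ w ∧ y ≤ w ∧ z ≤ w) := by
  rcases le_total x y with h1 | h1 <;> rcases le_total z w with h2 | h2 <;>
    rcases le_total (max x y) (max z w) with h3 | h3 <;>
    simp only [max_eq_left h1, max_eq_right h1, max_eq_left h2, max_eq_right h2] at h3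
  · right; right; right; exact ⟨h1.trans h3, h3, h2⟩
  · right; left; exact ⟨h1, h2.trans h3, h3⟩
  · right; right; left; exact ⟨h1.trans h3, h3, h2⟩
  · right; left; exact ⟨h1, h3, h2.trans h3⟩
  · right; right; right; exact ⟨h3, h1.trans h3, h2⟩
  · left; exact ⟨h1, h2.trans h3, h3⟩
  · right; right; left; exact ⟨h3, h1.trans h3, h2⟩
  · left; exact ⟨h1, h3, h2.trans h3⟩

theorem share_MM {g : Matrix (Fin 4) (Fin 4) ℝ} {P : ℝ}
    (h : ∀ i k k' : Fin 4, |Ph g (Pi.single i 1) (Pi.single k 1) (Pi.single i 1) (Pi.single k' 1)| ≤ P)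
    (a b : Fin 6) (hab : (a : ℕ) + b ≠ 5) : |MM g a b| ≤ P := by
  rw [MM_cpr]
  fin_cases a <;> fin_cases b <;>
    simp only [cpr, Fin.isValue, Fin.zero_eta, Fin.mk_one, Fin.reduceFinMk, Matrix.cons_val_zero,
      Matrix.cons_val_one, Matrix.cons_val] <;>
    first
    | with_reducible exact h _ _ _
    | (rw [Ph_swap1, abs_neg]; with_reducible exact h _ _ _)
    | (rw [Ph_swap2, abs_neg]; with_reducible exact h _ _ _)
    | (rw [Ph_swap1, Ph_swap2, neg_neg]; with_reducible exact h _ _ _)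
    | (exfalso; exact hab rfl)

theorem share_mr {g : Matrix (Fin 4) (Fin 4) ℝ} {P : ℝ} (hP : 0 ≤ P)
    (h : ∀ i k k' : Fin 4, |Ph g (Pi.single i 1) (Pi.single k 1) (Pi.single i 1) (Pi.single k' 1)| ≤ P)
    (a b c d : Fin 4) (hi : ∃ i : Fin 4, i ≠ a ∧ i ≠ b ∧ i ≠ c ∧ i ≠ d) : |mr g a b c d| ≤ P := by
  have h1 : ∀ i j k l : Fin 4, i < j → k < l → (∃ t : Fin 4, t ≠ i ∧ t ≠ j ∧ t ≠ k ∧ t ≠ l) →
      |mr g i j k l| ≤ P := by
    intro i j k l hij hkl ht
    obtain ⟨a, ha1, ha2⟩ := pr_lt hij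
    obtain ⟨b, hb1, hb2⟩ := pr_lt hkl
    have hab : (a : ℕ) + b ≠ 5 := by
      subst ha1 ha2 hb1 hb2
      revert ht
      revert a b
      decide
    have := share_MM h a b hab
    rwa [MM_mr, ha1, ha2, hb1, hb2] at this
  have h2 : ∀ i j k l : Fin 4, i < j → (∃ t : Fin 4, t ≠ i ∧ t ≠ j ∧ t ≠ k ∧ t ≠ l) →
      |mr g i j k l| ≤ P := by
    intro i j k l hij ht
    rcases lt_trichotomy k l with hkl | hkl | hkl
    · exact h1 i j k l hij hkl ht
    · subst hkl; rw [mr_self2, abs_zero]; exact hP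
    · rw [mr_swap2, abs_neg]
      obtain ⟨t, t1, t2, t3, t4⟩ := ht
      exact h1 i j l k hij hkl ⟨t, t1, t2, t4, t3⟩
  rcases lt_trichotomy a b with hij | hij | hij
  · exact h2 a b c d hij hi
  · subst hij; rw [mr_self1, abs_zero]; exact hP
  · rw [mr_swap1, abs_neg]
    obtain ⟨t, t1, t2, t3, t4⟩ := hi
    exact h2 b a c d hij ⟨t, t2, t1, t3, t4⟩

/-- the maximal minor is at most four times the maximal minor which avoids an index -/
theorem share4 {g : Matrix (Fin 4) (Fin 4) ℝ} (hg : ∀ i j, g i j = g j i) {P : ℝ} (hP : 0 ≤ P)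
    (h : ∀ i k k' : Fin 4, |Ph g (Pi.single i 1) (Pi.single k 1) (Pi.single i 1) (Pi.single k' 1)| ≤ P)
    (a b c d : Fin 4) : |mr g a b c d| ≤ 4 * P := by
  have hs := share_mr hP h
  have ns : ∀ a b c d : Fin 4, a ≠ b → a ≠ c → a ≠ d → b ≠ c → b ≠ d → c ≠ d →
      |mr g a b c d| ≤ 4 * P := by
    intro a b c d hab hac had hbc hbd hcd
    -- a minor on three letters
    have t1 : ∀ x y : Fin 4, ∀ z w : Fin 4, z ≠ x → z ≠ y → z ≠ w → |g x x * g y w - g x w * g y x| ≤ P := by
      intro x y z w h1 h2 h3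
      exact hs x y x w ⟨z, h1, h2, h1, h3⟩
    have core : ∀ a b c d : Fin 4, a ≠ b → a ≠ c → a ≠ d → b ≠ c → b ≠ d → c ≠ d →
        |g a d| ≤ |g a c| → |g b c| ≤ |g a c| → |g b d| ≤ |g a c| →
        |g a c * g b d - g a d * g b c| ≤ 4 * P := by
      intro a b c d hab hac had hbc hbd hcd h1 h2 h3
      refine mmax_core (aa := g a a) (cc := g c c) (ab := g a b) (cd := g c d) hP h1 h2 h3 ?_ ?_ ?_ ?_ ?_
      · have := t1 a c b c hab.symm hbc hbc
        rwa [hg c a] at this
      · have := t1 a b c d hac.symm hbc.symm hcd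
        rwa [hg b a] at this
      · have := t1 a b d c had.symm hbd.symm hcd.symm
        rwa [hg b a] at this
      · have := t1 c b a d hac hab had
        exact this
      · have := t1 c a b d hbc hab.symm hbd
        exact this
    unfold mr
    rcases max4 |g a c| |g a d| |g b c| |g b d| with ⟨h1, h2, h3⟩ | ⟨h1, h2, h3⟩ | ⟨h1, h2, h3⟩ | ⟨h1, h2, h3⟩
    · exact core a b c d hab hac had hbc hbd hcd h1 h2 h3
    · have := core a b d c hab had hac hbd hbc hcd.symm h1 h3 h2
      rw [abs_sub_comm]; exact this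
    · have := core b a c d hab.symm hbc hbd hac had hcd h3 h1 h2
      rw [abs_sub_comm]
      rw [show g a d * g b c - g a c * g b d = g b c * g a d - g b d * g a c by ring]
      exact this
    · have := core b a d c hab.symm hbd hbc had hac hcd.symm h3 h2 h1
      rw [show g a c * g b d - g a d * g b c = g b d * g a c - g b c * g a d by ring]
      exact this
  by_cases hab : a = b
  · subst hab; rw [mr_self1, abs_zero]; positivity
  by_cases hcd : c = d
  · subst hcd; rw [mr_self2, abs_zero]; positivity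
  by_cases hac : a = c
  · refine (hs a b c d ?_).trans (by linarith)
    subst hac
    revert a b d; decide
  by_cases had : a = d
  · refine (hs a b c d ?_).trans (by linarith)
    subst had
    revert a b c; decide
  by_cases hbc : b = c
  · refine (hs a b c d ?_).trans (by linarith)
    subst hbc
    revert a b d; decide
  by_cases hbd : b = d
  · refine (hs a b c d ?_).trans (by linarith)
    subst hbd
    revert a b c; decide
  exact ns a b c d hab hac had hbc hbd hcd

end Pool.Agent.PP5V
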